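import Pool.Agent.Lib.MP_d73b51_an.Ker

/-!
# Almost continuous annihilators of the perturbed spectrum
-/

set_option autoImplicit false

open Set Filter Topology MeasureTheory
open scoped ENNReal Real

namespace Pool.Agent.Lib.MP_d73b51_an

/-- The jump at `1/2`. -/
noncomputable def jump (t : ℝ) : ℝ := if t ≤ 1 / 2 then 0 else 1

@[fun_prop]
theorem jump_meas : Measurable jump :=
  Measurable.ite measurableSet_Iic measurable_const measurable_const

theorem jump_ann {ε μ : ℝ} (hμ : μ ∈ Pt ε) :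
    ∫ t in (0 : ℝ)..1, ex (-(ε * jump t)) * ex (μ * t) = 0 := by
  have hi : ∀ a b : ℝ, IntervalIntegrable (fun t => ex (-(ε * jump t))) volume a b := fun a b =>
    (intervalIntegrable_const (c := (1 : ℝ))).mono_fun'
      (continuous_ex.measurable.comp (by fun_prop)).aestronglyMeasurable
      (Eventually.of_forall fun _ => (norm_ex _).le)
  have e : ∫ t in (0 : ℝ)..(1 / 2), (ex (-(ε * jump t)) + ex (μ / 2) *
      ex (-(ε * jump (t + 1 / 2)))) * ex (μ * t)
      = (1 + ex (μ / 2) * ex (-ε)) * ∫ t in (0 : ℝ)..(1 / 2), ex (μ * t) := by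
    rw [← intervalIntegral.integral_const_mul, intervalIntegral.integral_of_le (by norm_num),
      intervalIntegral.integral_of_le (by norm_num)]
    refine setIntegral_congr_fun measurableSet_Ioc fun t ht => ?_
    have : ¬t + 1 / 2 ≤ 1 / 2 := by linarith [ht.1]
    simp only [jump, if_pos ht.2, if_neg this, mul_zero, neg_zero, ex_zero, mul_one]
  rw [halves hi, e]
  rcases hμ with ⟨m, hm, rfl⟩ | ⟨m, rfl⟩
  · rw [integral_ex_half hm, mul_zero]
  · rw [mul_div_cancel_left₀ _ two_ne_zero, ← ex_add, add_neg_cancel_right, ex_odd]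
    simp

theorem ex_sum {n : ℕ} (a : Fin n → ℝ) : ex (∑ i, a i) = ∏ i, ex (a i) := by
  simp [ex, Finset.mul_sum, ← Complex.exp_sum]

theorem sp_ann {n : ℕ} {σ : ℝ} (hσ : σ ∈ Od) {v : Fin (n + 2) → ℝ} (hv : v ∈ Sp n) :
    ∫ y, ex (-(σ * ∑ i : Fin (n + 1), y i.succ + σ⁻¹ * jump (y 0))) * ex (v ⬝ᵥ y) ∂cm (n + 2)
      = 0 := by
  let f : Fin (n + 2) → ℝ → ℂ := Fin.cons (fun t => ex (-(σ⁻¹ * jump t)) * ex (v 0 * t))
    fun i t => ex ((v i.succ - σ) * t)
  have e : ∀ y : Fin (n + 2) → ℝ, ex (-(σ * ∑ i : Fin (n + 1), y i.succ + σ⁻¹ * jump (y 0))) *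
      ex (v ⬝ᵥ y) = ∏ i, f i (y i) := fun y => by
    rw [Fin.prod_univ_succ, dotProduct, Fin.sum_univ_succ (fun i => v i * y i)]
    simp only [f, Fin.cons_zero, Fin.cons_succ, ← ex_sum, ← ex_add, sub_mul,
      Finset.sum_sub_distrib, ← Finset.mul_sum]
    congr 1
    ring
  have e2 : ∀ h : ℝ → ℂ, ∫ t in Icc (0 : ℝ) 1, h t = ∫ t in (0 : ℝ)..1, h t := fun h => by
    rw [intervalIntegral.integral_of_le zero_le_one, integral_Icc_eq_integral_Ioc]
  simp only [e]
  rw [cm, integral_fintype_prod_eq_prod]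
  by_cases h : ∀ i : Fin (n + 1), v i.succ = σ
  · refine Finset.prod_eq_zero (Finset.mem_univ 0) ?_
    rw [e2]
    exact jump_ann (h 0 ▸ hv.2)
  · obtain ⟨i, hi⟩ := not_forall.mp h
    refine Finset.prod_eq_zero (Finset.mem_univ i.succ) ?_
    rw [e2]
    refine integral_ex (sub_ne_zero.mpr hi) ?_
    obtain ⟨m, rfl⟩ := hσ
    obtain ⟨m', h'⟩ := hv.1 i
    rw [← ex_even (m' - m), show v i.succ = _ from h'.symm]
    congr 1
    push_cast
    ring

theorem cos_ex (r : ℝ) : (Real.cos r : ℂ) = (ex (-r) + ex r) / 2 := by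
  simp [ex_eq]

theorem sp_far (n : ℕ) (δ : ℝ) (hδ : 0 < δ) :
    ∃ x : C(Cube (n + 2), ℝ), 1 ≤ ‖x‖ ∧ ∃ g : (Fin (n + 2) → ℝ) → ℝ,
      Integrable g (cm (n + 2)) ∧ (∀ v ∈ Sp n, hat g v = 0) ∧ ∀ η : ℝ, 0 < η →
        ∃ u : C(Cube (n + 2), ℝ),
          ‖u‖ ≤ δ ∧ ∫ y, ‖(x - u) (clamp (n + 2) y) - g y‖ ∂cm (n + 2) ≤ η := by
  obtain ⟨m, hm⟩ := exists_nat_one_div_lt hδ
  let σ : ℝ := π * (2 * (m : ℤ) + 1)
  have hσ : σ ∈ Od := ⟨m, rfl⟩
  have hσ' : -σ ∈ Od := ⟨-m - 1, by simp only [σ]; push_cast; ring⟩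
  have h1 : (m : ℝ) + 1 ≤ σ := by
    simp only [σ, Int.cast_natCast]
    nlinarith [Real.pi_gt_three, (Nat.cast_nonneg m : (0 : ℝ) ≤ m)]
  have h2 : 0 < σ := lt_of_lt_of_le (by positivity) h1
  have h3 : σ⁻¹ ≤ δ := (inv_anti₀ (by positivity) h1).trans (one_div (m + 1 : ℝ) ▸ hm.le)
  let θ : (Fin (n + 2) → ℝ) → ℝ := fun y => σ * ∑ i : Fin (n + 1), y i.succ
  let ψ : ℕ → ℝ → ℝ := fun j t => min 1 (max 0 (j * (t - 1 / 2)))
  let x : C(Cube (n + 2), ℝ) := ⟨fun y => Real.cos (θ y), by fun_prop⟩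
  let G : ℕ → C(Cube (n + 2), ℝ) := fun j =>
    ⟨fun y => Real.cos (θ y + σ⁻¹ * ψ j (y.1 0)), Continuous.comp
      (g := fun y => Real.cos (θ y + σ⁻¹ * ψ j (y 0))) (by fun_prop) continuous_subtype_val⟩
  let g : (Fin (n + 2) → ℝ) → ℝ := fun y => Real.cos (θ y + σ⁻¹ * jump (y 0))
  have hg : Measurable g := by fun_prop
  refine ⟨x, ?_, g, (integrable_const (1 : ℝ)).mono' hg.aestronglyMeasurable
    (Eventually.of_forall fun _ => Real.abs_cos_le_one _), fun v hv => ?_, fun η hη => ?_⟩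
  · simpa [x, θ] using x.norm_coe_le_norm ⟨0, le_rfl, zero_le_one⟩
  · have hi : ∀ s : ℝ, Integrable (fun y : Fin (n + 2) → ℝ =>
        ex (-(s * ∑ i : Fin (n + 1), y i.succ + s⁻¹ * jump (y 0))) * ex (v ⬝ᵥ y)) (cm (n + 2)) :=
      fun s => (integrable_const (1 : ℝ)).mono'
        ((continuous_ex.measurable.comp (by fun_prop)).mul
          (Continuous.measurable (by fun_prop))).aestronglyMeasurable
        (Eventually.of_forall fun _ => by simp [norm_ex])
    have h4 := integral_add (hi σ) (hi (-σ))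
    rw [sp_ann hσ hv, sp_ann hσ' hv, add_zero] at h4
    rw [hat, ← zero_div 2, ← h4, ← integral_div]
    refine congrArg _ (funext fun y => ?_)
    rw [cos_ex, inv_neg, neg_mul, neg_mul, ← neg_add, neg_neg]
    ring
  · have h4 := tendsto_integral_of_dominated_convergence (μ := cm (n + 2))
      (F := fun j y => ‖G j (clamp (n + 2) y) - g y‖) (f := fun _ => (0 : ℝ)) (fun _ => (1 : ℝ) + 1)
      (fun j => ((Continuous.measurable (by fun_prop)).sub hg).norm.aestronglyMeasurable)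
      (integrable_const _) (fun j => Eventually.of_forall fun y => (norm_norm _).trans_le
        (norm_sub_le_of_le (Real.abs_cos_le_one _) (Real.abs_cos_le_one _))) (by
        rw [cm_eq]
        filter_upwards [ae_restrict_mem measurableSet_Icc] with y hy
        rw [show clamp (n + 2) y = ⟨y, hy⟩ from clamp_val ⟨y, hy⟩]
        refine tendsto_const_nhds.congr' ?_
        have h5 : ∀ᶠ j : ℕ in atTop, ψ j (y 0) = jump (y 0) := by
          by_cases h : y 0 ≤ 1 / 2
          · refine Eventually.of_forall fun j => ?_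
            simp only [ψ, jump, if_pos h]
            rw [max_eq_left (mul_nonpos_of_nonneg_of_nonpos j.cast_nonneg (by linarith)),
              min_eq_right zero_le_one]
          · filter_upwards [(tendsto_natCast_atTop_atTop.atTop_mul_const
              (sub_pos.mpr (not_le.mp h))).eventually_ge_atTop 1] with j hj
            simp only [ψ, jump, if_neg h]
            exact min_eq_left (le_max_of_le_right hj)
        filter_upwards [h5] with j hj
        simp [G, g, hj])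
    rw [integral_zero] at h4
    obtain ⟨j, hj⟩ := (h4.eventually (ge_mem_nhds hη)).exists
    refine ⟨x - G j, (ContinuousMap.norm_le _ hδ.le).mpr fun y => ?_, by rwa [sub_sub_cancel]⟩
    refine (Real.abs_cos_sub_cos_le _ _).trans (le_trans ?_ h3)
    rw [sub_add_cancel_left, abs_neg, abs_of_nonneg (by positivity)]
    exact mul_le_of_le_one_right (by positivity) (min_le_left _ _)

end Pool.Agent.Lib.MP_d73b51_an
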