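import Pool.Agent.Lib.MP_d73b51_an.OneD

/-!
# The cube, and the case of dimension one
-/

set_option autoImplicit false

open Set Filter Topology MeasureTheory
open scoped ENNReal

namespace Pool.Agent.Lib.MP_d73b51_an

/-- Lebesgue measure on the cube, as a product. -/
noncomputable def cm (d : ℕ) : Measure (Fin d → ℝ) :=
  Measure.pi fun _ => volume.restrict (Icc (0 : ℝ) 1)

instance (d : ℕ) : IsFiniteMeasure (cm d) := by unfold cm; infer_instance

theorem cm_eq (d : ℕ) : cm d = volume.restrict (Icc (0 : Fin d → ℝ) 1) := by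
  rw [cm, ← Measure.restrict_pi_pi, ← pi_univ_Icc]
  rfl

/-- Retraction onto the cube. -/
noncomputable def clamp (d : ℕ) : C(Fin d → ℝ, Cube d) :=
  ⟨fun y => ⟨fun i => projIcc 0 1 zero_le_one (y i),
    fun i => (projIcc 0 1 zero_le_one (y i)).2.1, fun i => (projIcc 0 1 zero_le_one (y i)).2.2⟩,
    Continuous.subtype_mk (continuous_pi fun i =>
      continuous_subtype_val.comp (continuous_projIcc.comp (continuous_apply i))) _⟩

theorem clamp_val {d : ℕ} (y : Cube d) : clamp d y = y := by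
  refine Subtype.ext (funext fun i => ?_)
  exact congrArg Subtype.val (projIcc_of_mem zero_le_one ⟨y.2.1 i, y.2.2 i⟩)

theorem conv_eq {d : ℕ} (k : (Fin d → ℝ) → ℝ) (f : C(Cube d, ℝ)) (x : Fin d → ℝ) :
    conv k f x = ∫ y, k (x - y) * f (clamp d y) ∂cm d := by
  rw [cm_eq, ← integral_subtype_comap measurableSet_Icc, conv]
  simp only [clamp_val]

/-- Composition with a continuous map. -/
noncomputable def compL {K L : Type} [TopologicalSpace K] [TopologicalSpace L] [CompactSpace K]
    [CompactSpace L] (φ : C(K, L)) : C(L, ℝ) →L[ℝ] C(K, ℝ) :=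
  LinearMap.mkContinuous ⟨⟨fun f => f.comp φ, fun _ _ => rfl⟩, fun _ _ => rfl⟩ 1 fun f => by
    rw [one_mul]
    exact (ContinuousMap.norm_le _ (norm_nonneg f)).mpr fun t => f.norm_coe_le_norm _

theorem norm_compL {K L : Type} [TopologicalSpace K] [TopologicalSpace L] [CompactSpace K]
    [CompactSpace L] (φ : C(K, L)) (f : C(L, ℝ)) : ‖compL φ f‖ ≤ ‖f‖ :=
  (ContinuousMap.norm_le _ (norm_nonneg f)).mpr fun _ => f.norm_coe_le_norm _

theorem l1_le_lp {α : Type} [MeasurableSpace α] (μ : Measure α) [IsFiniteMeasure μ] (p : ℝ≥0∞)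
    [hp : Fact (1 ≤ p)] : ∃ C : ℝ, ∀ g : Lp ℝ p μ, ∫ x, ‖g x‖ ∂μ ≤ C * ‖g‖ := by
  refine ⟨(μ univ ^ (1 / (1 : ℝ≥0∞).toReal - 1 / p.toReal)).toReal, fun g => ?_⟩
  have h := eLpNorm_le_eLpNorm_mul_rpow_measure_univ hp.out (Lp.aestronglyMeasurable g)
  rw [integral_norm_eq_lintegral_enorm (Lp.aestronglyMeasurable g),
    ← eLpNorm_one_eq_lintegral_enorm, Lp.norm_def, ← ENNReal.toReal_mul, mul_comm]
  refine ENNReal.toReal_mono (ENNReal.mul_ne_top (Lp.eLpNorm_ne_top g) ?_) h
  refine ENNReal.rpow_ne_top_of_nonneg ?_ (measure_ne_top _ _)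
  rcases eq_or_ne p ∞ with rfl | h'
  · simp
  · have : (1 : ℝ) ≤ p.toReal := by
      simpa using ENNReal.toReal_mono h' hp.out
    rw [ENNReal.toReal_one, sub_nonneg]
    exact one_div_le_one_div_of_le one_pos this

/-- The coordinate of the one-dimensional cube. -/
def c1 : C(Cube 1, UI) := ⟨fun y => ⟨y.1 0, y.2.1 0, y.2.2 0⟩,
  Continuous.subtype_mk ((continuous_apply 0).comp continuous_subtype_val) _⟩

/-- Its inverse. -/
def c1' : C(UI, Cube 1) := ⟨fun t => ⟨fun _ => t.1, fun _ => t.2.1, fun _ => t.2.2⟩, by fun_prop⟩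

theorem c1'_c1 (y : Cube 1) : c1' (c1 y) = y :=
  Subtype.ext (funext fun i => by rw [Subsingleton.elim i 0]; rfl)

theorem integral_one (F : (Fin 1 → ℝ) → ℝ) (μ : Measure ℝ) [SigmaFinite μ] :
    ∫ y, F y ∂(Measure.pi fun _ : Fin 1 => μ) = ∫ t, F (fun _ => t) ∂μ :=
  ((measurePreserving_funUnique μ (Fin 1)).symm.integral_comp' F).symm

theorem conv_one (k : (Fin 1 → ℝ) → ℝ) (f : C(UI, ℝ)) (s : ℝ) :
    conv k (compL c1 f) (fun _ => s) = cv (fun r => k fun _ => r) f s := by
  rw [conv_eq, cm, integral_one, cv, intervalIntegral.integral_of_le zero_le_one,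
    integral_Icc_eq_integral_Ioc]
  rfl

theorem regularizable_one (a b : Fin 1 → ℝ) (hab : a 0 < b 0) (p : ℝ≥0∞) [Fact (1 ≤ p)]
    (k : (Fin 1 → ℝ) → ℝ) (hk : LocallyIntegrable k volume)
    (A : C(Cube 1, ℝ) →L[ℝ] Lp ℝ p (volume.restrict (Icc a b)))
    (hA : ∀ f, A f =ᵐ[volume.restrict (Icc a b)] conv k f) (hinj : Function.Injective A) :
    Regularizable A := by
  let k1 : ℝ → ℝ := fun r => k fun _ => r
  have hk1 : LocallyIntegrable k1 volume := by
    rw [locallyIntegrable_iff]
    intro K hK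
    have h1 := (volume_preserving_funUnique (Fin 1) ℝ).symm
    have h2 : IsCompact ((MeasurableEquiv.funUnique (Fin 1) ℝ).symm '' K) :=
      hK.image (continuous_pi fun _ => continuous_id)
    exact (h1.integrableOn_image (MeasurableEquiv.measurableEmbedding _)).mp
      (hk.integrableOn_isCompact h2)
  have hμ : (volume.restrict (Icc a b) : Measure (Fin 1 → ℝ))
      = Measure.pi fun _ => volume.restrict (Icc (a 0) (b 0)) := by
    rw [← Measure.restrict_pi_pi, ← pi_univ_Icc]
    refine congrArg₂ _ rfl (congrArg _ (funext fun i => ?_))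
    rw [Subsingleton.elim i 0]
  have hint : ∀ f, ∫ x, ‖A (compL c1 f) x‖ ∂volume.restrict (Icc a b)
      = ∫ s in (a 0)..(b 0), ‖cv k1 f s‖ := by
    intro f
    refine (integral_congr_ae ((hA (compL c1 f)).fun_comp fun r => ‖r‖)).trans ?_
    rw [hμ, integral_one, intervalIntegral.integral_of_le hab.le, integral_Icc_eq_integral_Ioc]
    simp only [Function.comp_apply, conv_one, k1]
  have : IsFiniteMeasure (volume.restrict (Icc a b) : Measure (Fin 1 → ℝ)) := by
    rw [hμ]; infer_instance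
  obtain ⟨C, hC⟩ := l1_le_lp (volume.restrict (Icc a b)) p
  obtain ⟨c, hc⟩ := norming_of_cv (pk_cont hk1) (a := a 0) (b := b 0) (A.comp (compL c1)) C
    (fun f y hy => by
      rw [← integral_cv hk1 f hy.1]
      refine (intervalIntegral.norm_integral_le_integral_norm hy.1).trans ?_
      refine le_trans ?_ ((hint f).symm.le.trans (hC _))
      exact intervalIntegral.integral_mono_interval le_rfl hy.1 hy.2
        (Eventually.of_forall fun _ => norm_nonneg _) (cv_ii hk1 f hab.le).norm)
    (fun f hf => by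
      have h0 : ∫ s in (a 0)..(b 0), ‖cv k1 f s‖ = 0 := by
        rw [intervalIntegral.integral_of_le hab.le, integral_Ioc_eq_integral_Ioo]
        refine setIntegral_eq_zero_of_ae_eq_zero ?_
        filter_upwards [(cv_ii hk1 f hab.le).ae_hasDerivAt_integral] with x hx hx'
        rw [uIcc_of_le hab.le] at hx
        have d1 := hx (Ioo_subset_Icc_self hx') (a 0) ⟨le_rfl, hab.le⟩
        have d2 : HasDerivAt (fun x => ∫ t in (a 0)..x, cv k1 f t) 0 x := by
          refine (hasDerivAt_const x (0 : ℝ)).congr_of_eventuallyEq ?_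
          filter_upwards [Ioo_mem_nhds hx'.1 hx'.2] with y hy
          rw [integral_cv hk1 f hy.1.le, hf y (Ioo_subset_Icc_self hy), sub_self]
        rw [d1.unique d2, norm_zero]
      rw [← hint, integral_eq_zero_iff_of_nonneg (fun _ => norm_nonneg _)
        ((Lp.memLp _).integrable Fact.out).norm] at h0
      have h1 : A (compL c1 f) = 0 := by
        rw [Lp.eq_zero_iff_ae_eq_zero]
        filter_upwards [h0] with x hx
        simpa using hx
      have h2 : compL c1 f = 0 := hinj (h1.trans (map_zero A).symm)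
      ext t
      exact congrArg (fun g : C(Cube 1, ℝ) => g (c1' t)) h2)
  have hinv : ∀ g : C(Cube 1, ℝ), compL c1 (compL c1' g) = g := fun g =>
    ContinuousMap.ext fun y => congrArg g (c1'_c1 y)
  refine regularizable_of_norming A c fun x hx => ?_
  rw [← hinv x]
  refine (norm_compL _ _).trans (hc _ fun η hη => ?_)
  obtain ⟨u, hu, h⟩ := hx η hη
  rw [mem_closedBall_zero_iff] at hu
  refine ⟨compL c1' u, mem_closedBall_zero_iff.mpr ((norm_compL _ _).trans hu), ?_⟩
  simpa only [ContinuousLinearMap.comp_apply, hinv] using h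

end Pool.Agent.Lib.MP_d73b51_an
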