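import Mathlib

/-!
# Regularizable equations and convolution operators on the unit cube
-/

set_option autoImplicit false

open MeasureTheory

namespace Pool.Agent.Lib.MP_d73b51_an

/-- The equation `A f = g` is regularizable: there are maps `T α : Y → X`, `0 < α ≤ 1`, such that
for every `f` the supremum of `‖f - T α g‖` over `‖g - A f‖ ≤ α` tends to `0` as `α → 0`. -/
def Regularizable {X Y : Type} [NormedAddCommGroup X] [NormedAddCommGroup Y] (A : X → Y) : Prop :=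
  ∃ T : ℝ → Y → X, ∀ f : X, ∀ ε : ℝ, 0 < ε → ∃ δ : ℝ, 0 < δ ∧
    ∀ α : ℝ, 0 < α → α ≤ 1 → α < δ → ∀ g : Y, ‖g - A f‖ ≤ α → ‖f - T α g‖ ≤ ε

/-- Every injective bounded linear operator `A : C(K) → L^p(μ)` such that `A f` is the class of the
function `F f` for every `f` is regularizable. -/
def RegIfInjective {K Ω : Type} [TopologicalSpace K] [CompactSpace K] [MeasurableSpace Ω]
    (μ : Measure Ω) (p : ENNReal) [Fact (1 ≤ p)] (F : C(K, ℝ) → Ω → ℝ) : Prop :=
  ∀ A : C(K, ℝ) →L[ℝ] Lp ℝ p μ, (∀ f, A f =ᵐ[μ] F f) → Function.Injective A → Regularizable A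

/-- The closed unit cube `[0,1]^d`. -/
abbrev Cube (d : ℕ) : Type := Set.Icc (0 : Fin d → ℝ) 1

/-- The convolution `x ↦ ∫_{[0,1]^d} k (x - y) f(y) dy` (Lebesgue measure on the cube). -/
noncomputable def conv {d : ℕ} (k : (Fin d → ℝ) → ℝ) (f : C(Cube d, ℝ)) (x : Fin d → ℝ) : ℝ :=
  ∫ y : Cube d, k (x - y) * f y ∂(Measure.comap Subtype.val volume)

/-- `k` is even, positive definite, and the restriction to `ℝ^d` of an entire function
on `ℂ^d`. -/
def IsEntirePD {d : ℕ} (k : (Fin d → ℝ) → ℝ) : Prop :=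
  (∀ x, k (-x) = k x) ∧
  (∀ (n : ℕ) (x : Fin n → Fin d → ℝ) (c : Fin n → ℝ),
    0 ≤ ∑ i, ∑ j, c i * c j * k (x i - x j)) ∧
  ∃ K : (Fin d → ℂ) → ℂ, Differentiable ℂ K ∧ ∀ x : Fin d → ℝ, K (fun i => (x i : ℂ)) = k x

end Pool.Agent.Lib.MP_d73b51_an
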