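import Pool.Agent.Lib.MP_d73b51_an.Uniq

/-!
# Entire positive definite kernels with a prescribed countable spectrum
-/

set_option autoImplicit false

open Set Filter Topology MeasureTheory
open scoped ENNReal ComplexConjugate BoundedContinuousFunction

namespace Pool.Agent.Lib.MP_d73b51_an

theorem diff_series {E ι : Type} [NormedAddCommGroup E] [NormedSpace ℂ E] (L : ι → E →L[ℂ] ℂ)
    (b : ι → ℂ) (hb : ∀ R : ℝ, Summable fun i => ‖b i‖ * Real.exp (R * ‖L i‖)) :
    Differentiable ℂ fun z => ∑' i, b i * Complex.exp (L i z) := by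
  intro z
  refine (hasFDerivAt_tsum_of_isPreconnected (s := Metric.ball 0 (‖z‖ + 1)) (x₀ := 0)
    (f' := fun i x => b i • Complex.exp (L i x) • L i) (hb (‖z‖ + 1 + 1)) Metric.isOpen_ball
    (convex_ball _ _).isPreconnected (fun i x _ => (L i).hasFDerivAt.cexp.const_mul (b i))
    (fun i x hx => ?_) (Metric.mem_ball_self (by positivity)) ?_ (by simp)).differentiableAt
  · rw [norm_smul, norm_smul, add_mul _ 1, one_mul, Real.exp_add]
    refine mul_le_mul_of_nonneg_left (mul_le_mul ((Complex.norm_exp_le_exp_norm _).trans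
      (Real.exp_le_exp.mpr (((L i).le_opNorm x).trans ?_))) ?_ (norm_nonneg _)
      (Real.exp_pos _).le) (norm_nonneg _)
    · rw [mul_comm]
      exact mul_le_mul_of_nonneg_right (mem_ball_zero_iff.mp hx).le (norm_nonneg _)
    · linarith [Real.add_one_le_exp ‖L i‖]
  · simpa using (hb 0).of_norm_bounded (f := b) fun i => by simp

theorem vanish {d : ℕ} {Φ : (Fin d → ℂ) → ℂ} (hΦ : Differentiable ℂ Φ) (x₀ : Fin d → ℝ)
    (h : ∀ᶠ x : Fin d → ℝ in 𝓝 x₀, Φ (fun i => x i) = 0) (x : Fin d → ℝ) :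
    Φ (fun i => x i) = 0 := by
  have hg : Differentiable ℂ fun τ : ℂ => Φ fun i => x₀ i + τ * (x i - x₀ i) :=
    hΦ.comp (differentiable_pi.mpr fun i => by fun_prop)
  have h1 : Tendsto (fun t : ℝ => (t : ℂ)) (𝓝[≠] 0) (𝓝[≠] ((0 : ℝ) : ℂ)) :=
    Complex.continuous_ofReal.continuousWithinAt.tendsto_nhdsWithin fun t ht => by simpa using ht
  have h2 : Tendsto (fun (t : ℝ) i => x₀ i + t * (x i - x₀ i)) (𝓝 0) (𝓝 x₀) :=
    Continuous.tendsto' (by fun_prop) _ _ (by simp)
  have h3 := AnalyticOnNhd.eqOn_zero_of_preconnected_of_frequently_eq_zero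
    (fun τ _ => hg.analyticAt τ) isPreconnected_univ (mem_univ _) (h1.frequently
      (Eventually.frequently (((h2.eventually h).filter_mono nhdsWithin_le_nhds).mono
        fun t ht => by simpa using ht))) (mem_univ 1)
  simpa using h3

theorem conj_ex (r : ℝ) : conj (ex r) = ex (-r) := by
  rw [ex, ex, ← Complex.exp_conj]
  simp

variable {d : ℕ} {ι : Type}

/-- The complex linear extension of `x ↦ -i l·x`. -/
noncomputable def LL (l : Fin d → ℝ) : (Fin d → ℂ) →L[ℂ] ℂ :=
  ∑ j, (-(Complex.I * l j)) • ContinuousLinearMap.proj j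

theorem LL_real (l x : Fin d → ℝ) : Complex.exp (LL l fun i => x i) = ex (l ⬝ᵥ x) := by
  simp [LL, ex, dotProduct, Finset.mul_sum, mul_assoc]

/-- Real trigonometric series. -/
noncomputable def RS (l : ι → Fin d → ℝ) (b : ι → ℂ) (x : Fin d → ℝ) : ℝ :=
  ∑' i, (b i * ex (l i ⬝ᵥ x)).re

variable {l : ι → Fin d → ℝ} {b : ι → ℂ}

theorem term_le (c : ℂ) (r : ℝ) : ‖(c * ex r).re‖ ≤ ‖c‖ :=
  (Complex.abs_re_le_norm _).trans_eq (by rw [norm_mul, norm_ex, mul_one])

theorem RS_neg (x : Fin d → ℝ) : RS l b (-x) = RS l (fun i => conj (b i)) x :=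
  tsum_congr fun i => by rw [dotProduct_neg, ← conj_ex, ← Complex.conj_re, map_mul, Complex.conj_conj]

theorem RS_sub (x y : Fin d → ℝ) : RS l b (y - x) = RS l (fun i => b i * ex (l i ⬝ᵥ (-x))) y :=
  tsum_congr fun i => by rw [mul_assoc, ← ex_add, ← dotProduct_add, neg_add_eq_sub]

theorem RS_cont (hb : Summable fun i => ‖b i‖) : Continuous (RS l b) :=
  continuous_tsum (fun i => by fun_prop) hb fun _ _ => term_le _ _

theorem RS_le (hb : Summable fun i => ‖b i‖) (x : Fin d → ℝ) : ‖RS l b x‖ ≤ ∑' i, ‖b i‖ :=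
  tsum_of_norm_bounded hb.hasSum fun _ => term_le _ _

theorem RS_ext (hb : ∀ R : ℝ, Summable fun i => ‖b i‖ * Real.exp (R * ‖LL (l i)‖)) :
    ∃ Φ : (Fin d → ℂ) → ℂ, Differentiable ℂ Φ ∧ ∀ x : Fin d → ℝ, Φ (fun i => x i) = RS l b x := by
  have h1 := diff_series _ b hb
  have h2 := (diff_series (fun i => LL (l i)) (fun i => conj (b i)) (by simpa using hb)).comp
    (differentiable_id (E := Fin d → ℂ)).neg
  have h4 := ((h1.add h2).mul_const (2 : ℂ)⁻¹)
  refine ⟨_, h4, fun x => ?_⟩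
  have h3 : Summable fun i => b i * ex (l i ⬝ᵥ x) :=
    (hb 0).of_norm_bounded fun i => by simp [norm_ex]
  have e : (-fun i => (x i : ℂ)) = fun i => (((-x) i : ℝ) : ℂ) := funext fun i => by simp
  simp only [Pi.add_apply, Function.comp_apply, Pi.neg_apply id, id, e, LL_real, RS]
  rw [← Complex.re_tsum h3, Complex.re_eq_add_conj, Complex.conj_tsum]
  simp only [map_mul, conj_ex, dotProduct_neg, div_eq_mul_inv]

/-- Fourier coefficient on the cube. -/
noncomputable def hat (g : (Fin d → ℝ) → ℝ) (v : Fin d → ℝ) : ℂ :=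
  ∫ y, (g y : ℂ) * ex (v ⬝ᵥ y) ∂cm d

theorem hat_int {g : (Fin d → ℝ) → ℝ} (hg : Integrable g (cm d)) (v : Fin d → ℝ) :
    Integrable (fun y => (g y : ℂ) * ex (v ⬝ᵥ y)) (cm d) :=
  hg.ofReal.mul_bdd (c := 1) (Continuous.aestronglyMeasurable (by fun_prop))
    (Eventually.of_forall fun _ => (norm_ex _).le)

theorem hat_le (g : (Fin d → ℝ) → ℝ) (v : Fin d → ℝ) : ‖hat g v‖ ≤ ∫ y, ‖g y‖ ∂cm d :=
  (norm_integral_le_integral_norm _).trans_eq (by simp [norm_ex])

theorem pair [Countable ι] (hb : Summable fun i => ‖b i‖) {g : (Fin d → ℝ) → ℝ}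
    (hg : Integrable g (cm d)) :
    HasSum (fun i => (b i * hat g (l i)).re) (∫ y, RS l b y * g y ∂cm d) := by
  have e : ∀ i y, (b i * ex (l i ⬝ᵥ y)).re * g y = (b i * (g y * ex (l i ⬝ᵥ y))).re := fun i y => by
    rw [← Complex.re_mul_ofReal, mul_assoc, mul_comm (ex _)]
  have hi : ∀ i, Integrable (fun y => b i * (g y * ex (l i ⬝ᵥ y))) (cm d) := fun i =>
    (hat_int hg _).const_mul _
  have h := hasSum_integral_of_summable_integral_norm (μ := cm d)
    (F := fun i y => (b i * (g y * ex (l i ⬝ᵥ y))).re) (fun i => (hi i).re)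
    ((hb.mul_right (∫ y, ‖g y‖ ∂cm d)).of_nonneg_of_le
      (fun i => integral_nonneg fun _ => norm_nonneg _) fun i => by
        rw [← integral_const_mul]
        refine integral_mono (hi i).re.norm (hg.norm.const_mul _) fun y => ?_
        exact (Complex.abs_re_le_norm _).trans_eq (by simp [norm_ex]))
  have e2 : ∀ i, ∫ y, (b i * (g y * ex (l i ⬝ᵥ y))).re ∂cm d = (b i * hat g (l i)).re := fun i => by
    rw [hat, ← integral_const_mul]
    exact integral_re (hi i)
  simp only [e2] at h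
  simp only [← e, tsum_mul_right] at h
  exact h

theorem conv_RS [Countable ι] {w : ι → ℝ} (hw : Summable fun i => ‖(w i : ℂ)‖)
    {g : (Fin d → ℝ) → ℝ} (hg : Integrable g (cm d)) (x : Fin d → ℝ) :
    ∫ y, RS l (fun i => w i) (x - y) * g y ∂cm d = RS l (fun i => w i * conj (hat g (l i))) x := by
  have e : ∀ y, RS l (fun i => w i) (x - y) = RS l (fun i => w i * ex (l i ⬝ᵥ (-x))) y := fun y => by
    rw [← neg_sub, RS_neg, RS_sub]
    simp only [Complex.conj_ofReal]
  simp only [e]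
  rw [← (pair (by simpa [norm_ex] using hw) hg).tsum_eq]
  refine tsum_congr fun i => ?_
  rw [← Complex.conj_re, map_mul, map_mul, conj_ex, Complex.conj_ofReal, dotProduct_neg, neg_neg,
    mul_right_comm]

theorem RS_pd {w : ι → ℝ} (h0 : ∀ i, 0 ≤ w i) (hw : Summable fun i => ‖(w i : ℂ)‖) (n : ℕ)
    (x : Fin n → Fin d → ℝ) (c : Fin n → ℝ) :
    0 ≤ ∑ i, ∑ j, c i * c j * RS l (fun i => w i) (x i - x j) := by
  refine (hasSum_sum fun i _ => hasSum_sum fun j _ =>
    ((hw.of_norm_bounded fun _ => term_le _ _).hasSum.mul_left (c i * c j))).nonneg fun r => ?_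
  have e : ∑ i, ∑ j, c i * c j * (w r * ex (l r ⬝ᵥ (x i - x j))).re =
      w r * ((∑ i, c i * Real.cos (l r ⬝ᵥ x i)) ^ 2 + (∑ i, c i * Real.sin (l r ⬝ᵥ x i)) ^ 2) := by
    simp only [sq, Finset.sum_mul_sum]
    simp only [← Finset.sum_add_distrib, Finset.mul_sum]
    refine Finset.sum_congr rfl fun i _ => Finset.sum_congr rfl fun j _ => ?_
    rw [Complex.re_ofReal_mul, ex_eq, dotProduct_sub]
    simp only [Complex.sub_re, Complex.mul_re, Complex.ofReal_re, Complex.ofReal_im,
      Complex.I_re, Complex.I_im, Real.cos_sub]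
    ring
  rw [e]
  exact mul_nonneg (h0 r) (by positivity)

theorem exists_weights [Countable ι] (s : ι → ℝ) :
    ∃ w : ι → ℝ, (∀ i, 0 < w i) ∧ ∀ R : ℝ, Summable fun i => ‖(w i : ℂ)‖ * Real.exp (R * s i) := by
  have := Encodable.ofCountable ι
  obtain ⟨e, h1, c, h2, -⟩ := posSumOfEncodable one_pos ι
  refine ⟨fun i => e i * Real.exp (-s i ^ 2), fun i => mul_pos (h1 i) (Real.exp_pos _),
    fun R => (h2.summable.mul_right (Real.exp (R ^ 2))).of_nonneg_of_le
      (fun i => by positivity) fun i => ?_⟩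
  rw [Complex.norm_real, Real.norm_of_nonneg (mul_pos (h1 i) (Real.exp_pos _)).le, mul_assoc,
    ← Real.exp_add]
  refine mul_le_mul_of_nonneg_left (Real.exp_le_exp.mpr ?_) (h1 i).le
  nlinarith [sq_nonneg (s i - R), sq_nonneg R, sq_nonneg (s i)]

theorem exists_kernel (a b : Fin d → ℝ) (hab : ∀ i, a i < b i) (p : ℝ≥0∞) [Fact (1 ≤ p)]
    {Λ : Set (Fin d → ℝ)} (hc : Λ.Countable) (hU : Uniq d Λ)
    (hN : ∀ δ : ℝ, 0 < δ → ∃ x : C(Cube d, ℝ), 1 ≤ ‖x‖ ∧ ∃ g : (Fin d → ℝ) → ℝ,
      Integrable g (cm d) ∧ (∀ v ∈ Λ, hat g v = 0) ∧ ∀ η : ℝ, 0 < η → ∃ u : C(Cube d, ℝ),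
        ‖u‖ ≤ δ ∧ ∫ y, ‖(x - u) (clamp d y) - g y‖ ∂cm d ≤ η) :
    ∃ k, IsEntirePD k ∧ ∃ A : C(Cube d, ℝ) →L[ℝ] Lp ℝ p (volume.restrict (Icc a b)),
      (∀ f, A f =ᵐ[volume.restrict (Icc a b)] conv k f) ∧ Function.Injective A ∧
        ¬Regularizable A := by
  have := hc.to_subtype
  have : IsFiniteMeasure (volume.restrict (Icc a b) : Measure (Fin d → ℝ)) :=
    isFiniteMeasure_restrict.mpr isCompact_Icc.measure_lt_top.ne
  let l : Λ → Fin d → ℝ := Subtype.val
  obtain ⟨w, w0, hw⟩ := exists_weights fun i : Λ => ‖LL (l i)‖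
  have hw0 : Summable fun i => ‖(w i : ℂ)‖ := by simpa using hw 0
  let k := RS l fun i => w i
  let M := ∑' i, ‖(w i : ℂ)‖
  have hM : 0 ≤ M := tsum_nonneg fun _ => norm_nonneg _
  have kc : Continuous k := RS_cont hw0
  have hF : ∀ f : C(Cube d, ℝ), Integrable (fun y => f (clamp d y)) (cm d) := fun f =>
    cm_int (by fun_prop)
  have hs : ∀ (g : (Fin d → ℝ) → ℝ) (R : ℝ), Summable fun i =>
      ‖w i * conj (hat g (l i))‖ * Real.exp (R * ‖LL (l i)‖) := fun g R =>
    ((hw R).mul_right (∫ y, ‖g y‖ ∂cm d)).of_nonneg_of_le (fun i => by positivity) fun i => by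
      rw [norm_mul, mul_right_comm, Complex.norm_conj]
      exact mul_le_mul_of_nonneg_left (hat_le _ _) (by positivity)
  have hki : ∀ g, Integrable g (cm d) → ∀ x, Integrable (fun y => k (x - y) * g y) (cm d) :=
    fun g hg x => hg.bdd_mul (c := M) (Continuous.aestronglyMeasurable (by fun_prop))
      (Eventually.of_forall fun _ => RS_le hw0 _)
  have hle : ∀ g, Integrable g (cm d) → ∀ x,
      ‖∫ y, k (x - y) * g y ∂cm d‖ ≤ M * ∫ y, ‖g y‖ ∂cm d := fun g hg x => by
    rw [← integral_const_mul]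
    refine norm_integral_le_of_norm_le (hg.norm.const_mul M) (Eventually.of_forall fun y => ?_)
    rw [norm_mul]
    exact mul_le_mul_of_nonneg_right (RS_le hw0 _) (norm_nonneg _)
  have hcv : ∀ f, conv k f = RS l fun i => w i * conj (hat (fun y => f (clamp d y)) (l i)) :=
    fun f => funext fun x => by rw [conv_eq, conv_RS hw0 (hF f)]
  have hcc : ∀ f, Continuous (conv k f) := fun f => by
    rw [hcv]
    exact RS_cont (by simpa using hs _ 0)
  have hbd : ∀ f x, ‖conv k f x‖ ≤ M * (cm d).real univ * ‖f‖ := fun f x => by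
    rw [conv_eq, mul_assoc, mul_comm _ ‖f‖]
    refine (hle _ (hF f) x).trans (mul_le_mul_of_nonneg_left ((le_abs_self _).trans ?_) hM)
    exact norm_integral_le_of_norm_le_const (f := fun y => ‖f (clamp d y)‖)
      (Eventually.of_forall fun y => (norm_norm _).trans_le (f.norm_coe_le_norm _))
  let B : C(Cube d, ℝ) →L[ℝ] ((Fin d → ℝ) →ᵇ ℝ) := LinearMap.mkContinuous
    ⟨⟨fun f => BoundedContinuousFunction.ofNormedAddCommGroup _ (hcc f) _ (hbd f), fun f g => by
      ext x
      change conv k (f + g) x = conv k f x + conv k g x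
      simp only [conv_eq, ContinuousMap.add_apply, mul_add]
      exact integral_add (hki _ (hF f) x) (hki _ (hF g) x)⟩, fun c f => by
      ext x
      change conv k (c • f) x = c * conv k f x
      simp only [conv_eq, ContinuousMap.smul_apply, smul_eq_mul, ← integral_const_mul,
        mul_left_comm]⟩ (M * (cm d).real univ) fun f =>
    (BoundedContinuousFunction.norm_le (by positivity)).mpr (hbd f)
  let T := BoundedContinuousFunction.toLp (E := ℝ) p (volume.restrict (Icc a b)) ℝ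
  have hA : ∀ f, T.comp B f =ᵐ[volume.restrict (Icc a b)] conv k f := fun f =>
    BoundedContinuousFunction.coeFn_toLp p _ ℝ (B f)
  refine ⟨k, ⟨fun x => ?_, RS_pd (fun i => (w0 i).le) hw0, RS_ext hw⟩, T.comp B, hA, ?_,
    not_regularizable _ fun δ hδ => ?_⟩
  · simp only [k, RS_neg, Complex.conj_ofReal]
  · rw [injective_iff_map_eq_zero]
    intro f hf
    have h1 : conv k f =ᵐ[volume.restrict (Icc a b)] 0 :=
      (hA f).symm.trans (Lp.eq_zero_iff_ae_eq_zero.mp hf)
    have h2 := Measure.eqOn_open_of_ae_eq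
      (ae_restrict_of_ae_restrict_of_subset interior_subset h1) isOpen_interior
      (hcc f).continuousOn continuousOn_const
    obtain ⟨Φ, hΦ, h3⟩ := RS_ext (hs fun y => f (clamp d y))
    rw [← hcv] at h3
    have h4 : ∀ x, conv k f x = 0 := fun x => by
      have := vanish hΦ (fun i => (a i + b i) / 2) (by
        filter_upwards [interior_mem_nhds.mpr (pi_Icc_mem_nhds (a := a) (b := b)
          (fun i => by linarith [hab i]) fun i => by linarith [hab i])] with y hy
        rw [h3, h2 hy]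
        rfl) x
      rwa [h3, Complex.ofReal_eq_zero] at this
    have h5 := pair (l := l) (b := fun i => w i * conj (hat (fun y => f (clamp d y)) (l i)))
      (by simpa using hs (fun y => f (clamp d y)) 0) (hF f)
    simp only [← hcv, h4, zero_mul, integral_zero, mul_assoc, ← Complex.normSq_eq_conj_mul_self,
      ← Complex.ofReal_mul, Complex.ofReal_re] at h5
    have h6 := (hasSum_zero_iff_of_nonneg fun i =>
      mul_nonneg (w0 i).le (Complex.normSq_nonneg _)).mp h5
    ext y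
    have := hU (fun y => (f (clamp d y) : ℝ)) (by fun_prop) (fun v hv =>
      Complex.normSq_eq_zero.mp ((mul_eq_zero.mp (congrFun h6 ⟨v, hv⟩)).resolve_left (w0 _).ne'))
      y y.2
    simpa [clamp_val] using this
  · obtain ⟨x, hx, g, hg, h0, h1⟩ := hN δ hδ
    refine ⟨x, fun η hη => ?_, hx⟩
    obtain ⟨u, hu, h2⟩ := h1 (η / (‖T‖ * M + 1)) (by positivity)
    refine ⟨u, mem_closedBall_zero_iff.mpr hu, ?_⟩
    have h3 : ∀ z, ∫ y, k (z - y) * g y ∂cm d = 0 := fun z => by
      rw [conv_RS hw0 hg]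
      simp [RS, h0 _ (Subtype.prop _), l]
    have h4 : ‖B (x - u)‖ ≤ M * (η / (‖T‖ * M + 1)) := by
      refine (BoundedContinuousFunction.norm_le (by positivity)).mpr fun z => ?_
      change ‖conv k (x - u) z‖ ≤ _
      rw [conv_eq, ← sub_zero (integral _ _), ← h3 z, ← integral_sub (hki _ (hF _) z) (hki _ hg z)]
      simp only [← mul_sub]
      exact (hle _ ((hF _).sub hg) z).trans (mul_le_mul_of_nonneg_left h2 hM)
    rw [← map_sub]
    refine (T.le_opNorm _).trans ((mul_le_mul_of_nonneg_left h4 (norm_nonneg _)).trans ?_)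
    rw [← mul_assoc, ← mul_div_assoc, div_le_iff₀ (by positivity)]
    nlinarith

end Pool.Agent.Lib.MP_d73b51_an
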