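import Pool.Agent.Lib.MP_d73b51_an.Prim

/-!
# Truncated convolution on an interval is norming as soon as it is injective
-/

set_option autoImplicit false

open Set Filter Topology MeasureTheory

namespace Pool.Agent.Lib.MP_d73b51_an

/-- One-dimensional convolution. -/
noncomputable def cv (k : ℝ → ℝ) (f : C(UI, ℝ)) (x : ℝ) : ℝ :=
  ∫ t in (0 : ℝ)..1, k (x - t) * ext f t

/-- Primitive of the kernel. -/
noncomputable def pk (k : ℝ → ℝ) (r : ℝ) : ℝ := ∫ s in (0 : ℝ)..r, k s

theorem ii_of_loc {k : ℝ → ℝ} (hk : LocallyIntegrable k volume) (a b : ℝ) :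
    IntervalIntegrable k volume a b :=
  (hk.integrableOn_isCompact isCompact_uIcc).intervalIntegrable

theorem pk_cont {k : ℝ → ℝ} (hk : LocallyIntegrable k volume) : Continuous (pk k) :=
  intervalIntegral.continuous_primitive (ii_of_loc hk) 0

theorem integrable_prod_cv {k : ℝ → ℝ} (hk : LocallyIntegrable k volume) (f : C(UI, ℝ))
    (a y : ℝ) : Integrable (Function.uncurry fun x t : ℝ => k (x - t) * ext f t)
      ((volume.restrict (Ioc a y)).prod (volume.restrict (Ioc (0 : ℝ) 1))) := by
  have h1 : Integrable ((Icc (a - 1) y).indicator k) volume :=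
    (integrable_indicator_iff measurableSet_Icc).mpr (hk.integrableOn_isCompact isCompact_Icc)
  have h2 : Integrable ((Icc (0 : ℝ) 1).indicator (ext f)) volume :=
    (integrable_indicator_iff measurableSet_Icc).mpr (ext_cont f).integrableOn_Icc
  have h3 := h2.convolution_integrand (ContinuousLinearMap.mul ℝ ℝ) h1
  rw [Measure.prod_restrict]
  refine (h3.integrableOn (s := Ioc a y ×ˢ Ioc (0 : ℝ) 1)).congr_fun ?_
    (measurableSet_Ioc.prod measurableSet_Ioc)
  rintro ⟨x, t⟩ ⟨hx, ht⟩
  have m1 : x - t ∈ Icc (a - 1) y := ⟨by linarith [hx.1, ht.2], by linarith [hx.2, ht.1]⟩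
  have m2 : t ∈ Icc (0 : ℝ) 1 := Ioc_subset_Icc_self ht
  simp [indicator_of_mem m1, indicator_of_mem m2, mul_comm]

theorem cv_ii {k : ℝ → ℝ} (hk : LocallyIntegrable k volume) (f : C(UI, ℝ)) {a y : ℝ}
    (h : a ≤ y) : IntervalIntegrable (cv k f) volume a y := by
  rw [intervalIntegrable_iff_integrableOn_Ioc_of_le h]
  have := (integrable_prod_cv hk f a y).integral_prod_left
  refine this.congr (Eventually.of_forall fun x => ?_)
  simp only [cv, intervalIntegral.integral_of_le zero_le_one, Function.uncurry_apply_pair]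

theorem integral_cv {k : ℝ → ℝ} (hk : LocallyIntegrable k volume) (f : C(UI, ℝ)) {a y : ℝ}
    (h : a ≤ y) : ∫ x in a..y, cv k f x = cv (pk k) f y - cv (pk k) f a := by
  have c1 : ∀ x, IntervalIntegrable (fun t => pk k (x - t) * ext f t) volume 0 1 := fun x =>
    (((pk_cont hk).comp (continuous_const.sub continuous_id)).mul
      (ext_cont f)).intervalIntegrable _ _
  unfold cv
  rw [← intervalIntegral.integral_sub (c1 y) (c1 a)]
  simp only [intervalIntegral.integral_of_le zero_le_one]
  rw [intervalIntegral_integral_swap (by rw [uIoc_of_le h]; exact integrable_prod_cv hk f a y)]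
  refine integral_congr_ae (Eventually.of_forall fun t => ?_)
  simp only
  rw [intervalIntegral.integral_mul_const, intervalIntegral.integral_comp_sub_right k, ← sub_mul,
    pk, pk, intervalIntegral.integral_interval_sub_left (ii_of_loc hk _ _) (ii_of_loc hk _ _)]

theorem cv_prim {κ : ℝ → ℝ} (hκ : Continuous κ) (f : C(UI, ℝ)) (x : ℝ) :
    cv (pk κ) f x = pk κ (x - 1) * prim f 1 + cv κ (prim f) x := by
  have d1 : ∀ t, HasDerivAt (fun t => pk κ (x - t)) (-κ (x - t)) t := fun t =>
    ((hκ.integral_hasStrictDerivAt 0 (x - t)).hasDerivAt).comp_const_sub x t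
  have c1 : Continuous fun t => -κ (x - t) := by fun_prop
  have h := intervalIntegral.integral_mul_deriv_eq_deriv_mul (a := 0) (b := 1)
    (fun t _ => d1 t) (fun t _ => ext_deriv f t) (c1.intervalIntegrable _ _)
    ((ext_cont f).intervalIntegrable _ _)
  rw [cv, h, cv]
  simp only [intervalIntegral.integral_same, mul_zero, sub_zero, neg_mul,
    intervalIntegral.integral_neg, sub_neg_eq_add]
  refine congrArg₂ (· + ·) rfl (intervalIntegral.integral_congr fun t ht => ?_)
  rw [uIcc_of_le zero_le_one] at ht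
  simp only [ext_mem _ ht, prim_apply]

/-- Linear structure. -/
noncomputable def cvL {κ : ℝ → ℝ} (hκ : Continuous κ) (x : ℝ) : C(UI, ℝ) →ₗ[ℝ] ℝ where
  toFun f := cv κ f x
  map_add' f g := by
    have c1 : ∀ f : C(UI, ℝ), IntervalIntegrable (fun t => κ (x - t) * ext f t) volume 0 1 :=
      fun f => ((hκ.comp (continuous_const.sub continuous_id)).mul
        (ext_cont f)).intervalIntegrable _ _
    unfold cv
    rw [← intervalIntegral.integral_add (c1 f) (c1 g)]
    refine intervalIntegral.integral_congr fun t _ => ?_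
    exact mul_add _ _ _
  map_smul' r f := by
    unfold cv
    rw [RingHom.id_apply, smul_eq_mul, ← intervalIntegral.integral_const_mul]
    refine intervalIntegral.integral_congr fun t _ => ?_
    exact mul_left_comm _ _ _

theorem cv_tendsto {κ : ℝ → ℝ} (hκ : Continuous κ) (x : ℝ) {H : ℕ → C(UI, ℝ)} {G : C(UI, ℝ)}
    (h : Tendsto H atTop (𝓝 G)) : Tendsto (fun j => cv κ (H j) x) atTop (𝓝 (cv κ G x)) := by
  obtain ⟨M, hM⟩ := (isCompact_Icc (a := (0 : ℝ)) (b := 1)).exists_bound_of_continuousOn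
    (f := fun t => κ (x - t)) (by fun_prop)
  have hM0 : 0 ≤ M := (norm_nonneg _).trans (hM 0 ⟨le_rfl, zero_le_one⟩)
  rw [tendsto_iff_norm_sub_tendsto_zero] at h ⊢
  refine squeeze_zero (fun _ => norm_nonneg _) (fun j => ?_) (by simpa using h.const_mul M)
  have e : cv κ (H j) x - cv κ G x = cv κ (H j - G) x := ((cvL hκ x).map_sub _ _).symm
  rw [e]
  have := intervalIntegral.norm_integral_le_of_norm_le_const (a := 0) (b := 1)
    (f := fun t => κ (x - t) * ext (H j - G) t) (C := M * ‖H j - G‖) fun t ht => by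
      rw [uIoc_of_le zero_le_one] at ht
      rw [norm_mul]
      exact mul_le_mul (hM t (Ioc_subset_Icc_self ht)) (ext_le _ _) (norm_nonneg _) hM0
  simpa [cv] using this

variable {Y : Type} [NormedAddCommGroup Y] [NormedSpace ℝ Y]

theorem norming_of_cv {κ : ℝ → ℝ} (hκ : Continuous κ) {a b : ℝ} (A : C(UI, ℝ) →L[ℝ] Y) (C : ℝ)
    (h1 : ∀ f, ∀ y ∈ Icc a b, ‖cv κ f y - cv κ f a‖ ≤ C * ‖A f‖)
    (h2 : ∀ f, (∀ y ∈ Icc a b, cv κ f y = cv κ f a) → f = 0) :
    ∃ c : ℝ, ∀ x ∈ acl A (Metric.closedBall 0 1), ‖x‖ ≤ c := by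
  let B : C(UI, ℝ) →ₗ[ℝ] (Icc a b → ℝ) := LinearMap.pi fun y => cvL hκ y - cvL hκ a
  have hB : ∀ f y, B f y = cv κ f y - cv κ f a := fun _ _ => rfl
  have hBi : Function.Injective B := by
    rw [injective_iff_map_eq_zero]
    exact fun f hf => h2 f fun y hy => sub_eq_zero.mp (congrFun hf ⟨y, hy⟩)
  let e1 : Icc a b → ℝ := fun y => y - a
  let e2 : Icc a b → ℝ := fun y => pk κ (y - 1) - pk κ (a - 1)
  let W : Submodule ℝ (Icc a b → ℝ) := Submodule.span ℝ {e1, e2}
  have : FiniteDimensional ℝ W := FiniteDimensional.span_of_finite ℝ (toFinite _)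
  have : FiniteDimensional ℝ (W.comap B) :=
    FiniteDimensional.of_injective (B.restrict (p := W.comap B) (q := W) fun _ hx => hx)
      fun x y h => Subtype.ext (hBi (congrArg Subtype.val h))
  refine norming_of_fd A (fun f hf => h2 f fun y hy => ?_) (W.comap B) ?_
  · have := h1 f y hy
    rw [hf, norm_zero, mul_zero] at this
    exact sub_eq_zero.mp (norm_le_zero_iff.mp this)
  intro h G _ _ hA hP
  let V : C(UI, ℝ) → Icc a b → ℝ := fun f y => ∫ x in a..y, (cv κ f x - cv κ f a)
  have hW : ∀ f, B (prim f) - V f ∈ W := by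
    intro f
    refine Submodule.mem_span_pair.mpr ⟨cv κ f a, -prim f 1, funext fun y => ?_⟩
    have i1 := integral_cv hκ.locallyIntegrable f y.2.1
    rw [cv_prim hκ, cv_prim hκ] at i1
    simp only [V, Pi.add_apply, Pi.smul_apply, Pi.sub_apply, smul_eq_mul, hB, e1, e2]
    rw [intervalIntegral.integral_sub (cv_ii hκ.locallyIntegrable f y.2.1)
      intervalIntegrable_const, i1, intervalIntegral.integral_const, smul_eq_mul]
    ring
  change B G ∈ (W : Set (Icc a b → ℝ))
  refine W.closed_of_finiteDimensional.mem_of_tendsto (f := fun j => B (prim (h j)) - V (h j))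
    (b := atTop) ?_ (Eventually.of_forall fun j => hW _)
  rw [tendsto_pi_nhds]
  intro y
  have t1 := (cv_tendsto hκ y hP).sub (cv_tendsto hκ a hP)
  have t2 : Tendsto (fun j => V (h j) y) atTop (𝓝 0) := by
    refine squeeze_zero_norm (fun j => intervalIntegral.norm_integral_le_of_norm_le_const
      (C := C * ‖A (h j)‖) fun x hx => ?_) (by simpa using (hA.norm.const_mul C).mul_const _)
    rw [uIoc_of_le y.2.1] at hx
    exact h1 _ x ⟨hx.1.le, hx.2.trans y.2.2⟩
  simpa [hB] using t1.sub t2

end Pool.Agent.Lib.MP_d73b51_an
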