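import Pool.Agent.Lib.MP_d73b51_an.Reg

/-!
# Primitives on the unit interval and the finite-dimensional criterion
-/

set_option autoImplicit false

open Set Filter Topology MeasureTheory

namespace Pool.Agent.Lib.MP_d73b51_an

/-- The unit interval. -/
abbrev UI : Type := Set.Icc (0 : ℝ) 1

/-- Extension to the line by constants. -/
noncomputable def ext (f : C(UI, ℝ)) : ℝ → ℝ := IccExtend zero_le_one f

theorem ext_cont (f : C(UI, ℝ)) : Continuous (ext f) := f.continuous.Icc_extend'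

theorem ext_val (f : C(UI, ℝ)) (t : UI) : ext f t = f t := IccExtend_val _ _ _

theorem ext_mem (f : C(UI, ℝ)) {t : ℝ} (ht : t ∈ Icc (0 : ℝ) 1) : ext f t = f ⟨t, ht⟩ :=
  IccExtend_of_mem _ _ ht

theorem ext_le (f : C(UI, ℝ)) (t : ℝ) : ‖ext f t‖ ≤ ‖f‖ := f.norm_coe_le_norm _

theorem ext_deriv (f : C(UI, ℝ)) (t : ℝ) :
    HasDerivAt (fun u => ∫ s in (0 : ℝ)..u, ext f s) (ext f t) t :=
  ((ext_cont f).integral_hasStrictDerivAt 0 t).hasDerivAt

/-- The primitive vanishing at zero. -/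
noncomputable def prim (f : C(UI, ℝ)) : C(UI, ℝ) :=
  ⟨fun t => ∫ s in (0 : ℝ)..t, ext f s,
    (continuous_iff_continuousAt.mpr fun t => (ext_deriv f t).continuousAt).comp
      continuous_subtype_val⟩

theorem prim_apply (f : C(UI, ℝ)) (t : UI) : prim f t = ∫ s in (0 : ℝ)..t, ext f s := rfl

theorem prim_sub (f g : C(UI, ℝ)) : prim (f - g) = prim f - prim g := by
  ext t
  rw [ContinuousMap.sub_apply, prim_apply, prim_apply, prim_apply,
    ← intervalIntegral.integral_sub ((ext_cont f).intervalIntegrable _ _)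
      ((ext_cont g).intervalIntegrable _ _)]
  rfl

/-- Lipschitz bound. -/
def Lp1 (G : C(UI, ℝ)) (c : ℝ) : Prop := ∀ s t : UI, |G s - G t| ≤ c * |(s : ℝ) - t|

theorem Lp1.sub {G H : C(UI, ℝ)} {c e : ℝ} (h1 : Lp1 G c) (h2 : Lp1 H e) :
    Lp1 (G - H) (c + e) := by
  intro s t
  have e1 : (G - H) s - (G - H) t = (G s - G t) - (H s - H t) := by
    simp only [ContinuousMap.sub_apply]; ring
  rw [e1, add_mul]
  exact (abs_sub _ _).trans (add_le_add (h1 s t) (h2 s t))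

theorem Lp1.add {G H : C(UI, ℝ)} {c e : ℝ} (h1 : Lp1 G c) (h2 : Lp1 H e) :
    Lp1 (G + H) (c + e) := by
  intro s t
  have e1 : (G + H) s - (G + H) t = (G s - G t) + (H s - H t) := by
    simp only [ContinuousMap.add_apply]; ring
  rw [e1, add_mul]
  exact (abs_add_le _ _).trans (add_le_add (h1 s t) (h2 s t))

theorem lp1_prim (f : C(UI, ℝ)) {c : ℝ} (hc : ‖f‖ ≤ c) : Lp1 (prim f) c := by
  intro s t
  rw [prim_apply, prim_apply, intervalIntegral.integral_interval_sub_left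
    ((ext_cont f).intervalIntegrable _ _) ((ext_cont f).intervalIntegrable _ _)]
  exact intervalIntegral.norm_integral_le_of_norm_le_const fun x _ => (ext_le f x).trans hc

theorem norm_prim (f : C(UI, ℝ)) {c : ℝ} (hc : ‖f‖ ≤ c) : ‖prim f‖ ≤ c := by
  have h0 : 0 ≤ c := (norm_nonneg _).trans hc
  refine (ContinuousMap.norm_le _ h0).mpr fun t => ?_
  rw [prim_apply]
  refine (intervalIntegral.norm_integral_le_of_norm_le_const
    fun x _ => (ext_le f x).trans hc).trans ?_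
  rw [sub_zero, abs_of_nonneg t.2.1]
  nlinarith [t.2.2]

theorem norm_le_of_lp1 (f : C(UI, ℝ)) {c : ℝ} (h0 : 0 ≤ c) (h : Lp1 (prim f) c) : ‖f‖ ≤ c := by
  have h1 : ∀ t ∈ Ioo (0 : ℝ) 1, ‖ext f t‖ ≤ c := by
    intro t ht
    refine (ext_deriv f t).le_of_lip' h0 ?_
    filter_upwards [Ioo_mem_nhds ht.1 ht.2] with s hs
    exact h ⟨s, Ioo_subset_Icc_self hs⟩ ⟨t, Ioo_subset_Icc_self ht⟩
  have h2 := le_on_closure h1 (ext_cont f).norm.continuousOn continuousOn_const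
  rw [closure_Ioo zero_ne_one] at h2
  refine (ContinuousMap.norm_le _ h0).mpr fun t => ?_
  rw [← ext_val]
  exact h2 t.2

theorem isCompact_lp1 (c : ℝ) : IsCompact {G : C(UI, ℝ) | Lp1 G c ∧ ∀ t, |G t| ≤ c} := by
  have hcont : ∀ g : UI → ℝ, (∀ s t : UI, |g s - g t| ≤ c * |(s : ℝ) - t|) → Continuous g := by
    intro g hg
    refine (LipschitzWith.of_dist_le_mul (K := c.toNNReal) fun s t => ?_).continuous
    rw [Real.dist_eq, Subtype.dist_eq, Real.dist_eq]
    exact (hg s t).trans (mul_le_mul_of_nonneg_right (Real.le_coe_toNNReal c) (abs_nonneg _))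
  apply ArzelaAscoli.isCompact_of_equicontinuous
  · have e : ContinuousMap.toFun '' {G : C(UI, ℝ) | Lp1 G c ∧ ∀ t, |G t| ≤ c}
        = (univ.pi fun _ : UI => Icc (-c) c) ∩
          ⋂ s : UI, ⋂ t : UI, {g : UI → ℝ | |g s - g t| ≤ c * |(s : ℝ) - t|} := by
      ext g
      simp only [mem_image, mem_inter_iff, mem_iInter, Set.mem_pi, mem_univ, true_imp_iff]
      constructor
      · rintro ⟨G, ⟨h1, h2⟩, rfl⟩
        exact ⟨fun t => abs_le.mp (h2 t), h1⟩
      · rintro ⟨h1, h2⟩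
        exact ⟨⟨g, hcont g h2⟩, ⟨h2, fun t => abs_le.mpr (h1 t)⟩, rfl⟩
    rw [e]
    refine (isCompact_univ_pi fun _ => isCompact_Icc).inter_right ?_
    exact isClosed_iInter fun s => isClosed_iInter fun t =>
      isClosed_le (by fun_prop) continuous_const
  · refine Metric.equicontinuous_of_continuity_modulus (fun r => c * r) ?_ _ ?_
    · have : Tendsto (fun r : ℝ => c * r) (𝓝 0) (𝓝 (c * 0)) :=
        (continuous_const.mul continuous_id).tendsto 0
      simpa using this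
    · intro s t G
      rw [Real.dist_eq, Subtype.dist_eq, Real.dist_eq]
      exact G.2.1 s t

/-- The Lipschitz functions. -/
def lipSub : Submodule ℝ C(UI, ℝ) where
  carrier := {G | ∃ c, Lp1 G c}
  add_mem' := fun ⟨_, h1⟩ ⟨_, h2⟩ => ⟨_, h1.add h2⟩
  zero_mem' := ⟨0, fun s t => by simp⟩
  smul_mem' := fun r G ⟨c, h⟩ => ⟨|r| * c, fun s t => by
    simp only [ContinuousMap.smul_apply, smul_eq_mul]
    rw [← mul_sub, abs_mul, mul_assoc]
    exact mul_le_mul_of_nonneg_left (h s t) (abs_nonneg _)⟩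

theorem bs_fd {E ι : Type} [NormedAddCommGroup E] [NormedSpace ℝ E] (W : Submodule ℝ E)
    [FiniteDimensional ℝ W] (g : ι → E →ₗ[ℝ] ℝ) (h : ∀ G ∈ W, ∃ C : ℝ, ∀ i, ‖g i G‖ ≤ C) :
    ∃ C : ℝ, 0 ≤ C ∧ ∀ G ∈ W, ∀ i, ‖g i G‖ ≤ C * ‖G‖ := by
  have : CompleteSpace W := FiniteDimensional.complete ℝ W
  let g' : ι → W →L[ℝ] ℝ := fun i => LinearMap.toContinuousLinearMap ((g i).comp W.subtype)
  obtain ⟨C, hC⟩ := banach_steinhaus (g := g') fun G => h G.1 G.2
  exact ⟨max C 0, le_max_right _ _, fun G hG i =>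
    (g' i).le_of_opNorm_le ((hC i).trans (le_max_left _ _)) ⟨G, hG⟩⟩

theorem subseq_fd {E : Type} [NormedAddCommGroup E] [NormedSpace ℝ E] (W : Submodule ℝ E)
    [FiniteDimensional ℝ W] (G : ℕ → E) (hG : ∀ m, G m ∈ W) (c : ℝ) (hb : ∀ m, ‖G m‖ ≤ c) :
    ∃ (G0 : E) (φ : ℕ → ℕ), StrictMono φ ∧ Tendsto (fun j => G (φ j)) atTop (𝓝 G0) := by
  have : ProperSpace W := FiniteDimensional.proper_real W
  obtain ⟨G0, -, φ, hφ, hlim⟩ := tendsto_subseq_of_bounded (x := fun m => (⟨G m, hG m⟩ : W))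
    (Metric.isBounded_closedBall (x := (0 : W)) (r := c))
    (fun m => mem_closedBall_zero_iff.mpr (hb m))
  exact ⟨G0, φ, hφ, (continuous_subtype_val.tendsto G0).comp hlim⟩

theorem lp1_of_fd (W : Submodule ℝ C(UI, ℝ)) [FiniteDimensional ℝ W] (hW : W ≤ lipSub) :
    ∃ C : ℝ, 0 ≤ C ∧ ∀ G ∈ W, Lp1 G (C * ‖G‖) := by
  let g : UI × UI → C(UI, ℝ) →ₗ[ℝ] ℝ := fun p =>
    { toFun := fun G => |(p.1 : ℝ) - p.2|⁻¹ * (G p.1 - G p.2)
      map_add' := fun G H => by simp only [ContinuousMap.add_apply]; ring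
      map_smul' := fun r G => by
        simp only [ContinuousMap.smul_apply, smul_eq_mul, RingHom.id_apply]; ring }
  have hg : ∀ p G, ‖g p G‖ = |(p.1 : ℝ) - p.2|⁻¹ * |G p.1 - G p.2| := by
    intro p G
    simp [g]
  obtain ⟨C, hC0, hC⟩ := bs_fd W g fun G hG => by
    obtain ⟨c, hc⟩ := hW hG
    refine ⟨|c|, fun p => ?_⟩
    rw [hg]
    rcases eq_or_lt_of_le (abs_nonneg ((p.1 : ℝ) - p.2)) with h | h
    · rw [← h]; simp
    · rw [inv_mul_le_iff₀ h]
      have := hc p.1 p.2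
      nlinarith [le_abs_self c]
  refine ⟨C, hC0, fun G hG s t => ?_⟩
  rcases eq_or_lt_of_le (abs_nonneg ((s : ℝ) - t)) with h | h
  · have : s = t := Subtype.ext (sub_eq_zero.mp (abs_eq_zero.mp h.symm))
    subst this
    simp
  · have h1 := hC G hG (s, t)
    rw [hg, inv_mul_le_iff₀ h] at h1
    rw [mul_comm]
    exact h1

variable {Y : Type} [NormedAddCommGroup Y] [NormedSpace ℝ Y]

theorem norming_of_fd (A : C(UI, ℝ) →L[ℝ] Y) (hinj : ∀ f, A f = 0 → f = 0)
    (N : Submodule ℝ C(UI, ℝ)) [FiniteDimensional ℝ N]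
    (hN : ∀ (h : ℕ → C(UI, ℝ)) (G : C(UI, ℝ)) (C : ℝ), (∀ j, ‖h j‖ ≤ C) →
      Tendsto (fun j => A (h j)) atTop (𝓝 0) → Tendsto (fun j => prim (h j)) atTop (𝓝 G) →
      G ∈ N) :
    ∃ c : ℝ, ∀ x ∈ acl A (Metric.closedBall 0 1), ‖x‖ ≤ c := by
  have step1 : ∀ (δ : ℝ) x, x ∈ acl A (Metric.closedBall 0 δ) →
      ∃ U, (Lp1 U δ ∧ ∀ t, |U t| ≤ δ) ∧ prim x - U ∈ N := by
    intro δ x hx
    choose u hu hxu using fun j : ℕ => hx (1 / ((j : ℝ) + 1)) (by positivity)
    simp only [mem_closedBall_zero_iff] at hu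
    obtain ⟨U, hU, φ, hφ, hlim⟩ := (isCompact_lp1 δ).tendsto_subseq (x := fun j => prim (u j))
      (fun j => ⟨lp1_prim _ (hu j),
        fun t => ((prim (u j)).norm_coe_le_norm t).trans (norm_prim _ (hu j))⟩)
    refine ⟨U, hU, hN (fun j => x - u (φ j)) _ (‖x‖ + δ)
      (fun j => (norm_sub_le _ _).trans (add_le_add le_rfl (hu _))) ?_ ?_⟩
    · refine squeeze_zero_norm (fun j => ?_)
        (tendsto_one_div_add_atTop_nhds_zero_nat.comp hφ.tendsto_atTop)
      rw [map_sub]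
      exact hxu _
    · simp only [prim_sub]
      exact tendsto_const_nhds.sub hlim
  by_contra hcon
  simp only [not_exists, not_forall, not_le] at hcon
  let δ : ℕ → ℝ := fun m => 1 / ((m : ℝ) + 1)
  have hδ0 : ∀ m, 0 < δ m := fun m => by positivity
  have hδ1 : ∀ m, δ m ≤ 1 := fun m => by
    have : (0 : ℝ) ≤ m := Nat.cast_nonneg _
    rw [div_le_one (by positivity)]; linarith
  have hy : ∀ m : ℕ, ∃ y ∈ acl A (Metric.closedBall 0 (δ m)), ‖y‖ = 1 := by
    intro m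
    obtain ⟨x, hx, hlt⟩ := hcon ((m : ℝ) + 1)
    have hm : (0 : ℝ) < m + 1 := by positivity
    have hx0 : 0 < ‖x‖ := hm.trans hlt
    have hi : ‖x‖⁻¹ ≤ δ m := by
      rw [inv_eq_one_div]; exact one_div_le_one_div_of_le hm hlt.le
    refine ⟨‖x‖⁻¹ • x, fun η hη => ?_, ?_⟩
    · obtain ⟨u, hu, h⟩ := hx η hη
      rw [mem_closedBall_zero_iff] at hu
      have hi0 : 0 < ‖x‖⁻¹ := inv_pos.mpr hx0
      refine ⟨‖x‖⁻¹ • u, ?_, ?_⟩
      · rw [mem_closedBall_zero_iff, norm_smul, Real.norm_of_nonneg hi0.le]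
        nlinarith
      · rw [map_smul, map_smul, ← smul_sub, norm_smul, Real.norm_of_nonneg hi0.le]
        nlinarith [hδ1 m, norm_nonneg (A x - A u)]
    · rw [norm_smul, Real.norm_of_nonneg (inv_pos.mpr hx0).le, inv_mul_cancel₀ hx0.ne']
  choose y hy hy1 using hy
  choose U hU hG using fun m => step1 (δ m) (y m) (hy m)
  let W : Submodule ℝ C(UI, ℝ) := N ⊓ lipSub
  have : FiniteDimensional ℝ W := Submodule.finiteDimensional_inf_left N lipSub
  obtain ⟨C, hC0, hC⟩ := lp1_of_fd W inf_le_right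
  let G : ℕ → C(UI, ℝ) := fun m => prim (y m) - U m
  have hGW : ∀ m, G m ∈ W := fun m => ⟨hG m, _, (lp1_prim _ (hy1 m).le).sub (hU m).1⟩
  have hGb : ∀ m, ‖G m‖ ≤ 2 := by
    intro m
    have h1 := norm_prim _ (hy1 m).le
    have h2 : ‖U m‖ ≤ δ m := (ContinuousMap.norm_le _ (hδ0 m).le).mpr (hU m).2
    exact (norm_sub_le _ _).trans (by linarith [hδ1 m])
  obtain ⟨G0, φ, hφ, hlim⟩ := subseq_fd W G hGW 2 hGb
  have hδlim : Tendsto (fun j => δ (φ j)) atTop (𝓝 0) :=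
    tendsto_one_div_add_atTop_nhds_zero_nat.comp hφ.tendsto_atTop
  have hdiff : ∀ a b, ‖y a - y b‖ ≤ C * ‖G a - G b‖ + δ a + δ b := by
    intro a b
    have h1 := hC _ (W.sub_mem (hGW a) (hGW b))
    have h2 := (h1.add (hU a).1).sub (hU b).1
    have e : G a - G b + U a - U b = prim (y a - y b) := by
      rw [prim_sub]
      change prim (y a) - U a - (prim (y b) - U b) + U a - U b = _
      abel
    rw [e] at h2
    refine norm_le_of_lp1 _ ?_ h2
    have := hδ0 a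
    have := hδ0 b
    positivity
  have hcau : CauchySeq fun j => y (φ j) := by
    rw [cauchySeq_iff_tendsto_dist_atTop_0]
    have t1 : Tendsto (fun n : ℕ × ℕ => G (φ n.1)) atTop (𝓝 G0) :=
      hlim.comp (by rw [← prod_atTop_atTop_eq]; exact tendsto_fst)
    have t2 : Tendsto (fun n : ℕ × ℕ => G (φ n.2)) atTop (𝓝 G0) :=
      hlim.comp (by rw [← prod_atTop_atTop_eq]; exact tendsto_snd)
    have t3 : Tendsto (fun n : ℕ × ℕ => δ (φ n.1)) atTop (𝓝 0) :=
      hδlim.comp (by rw [← prod_atTop_atTop_eq]; exact tendsto_fst)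
    have t4 : Tendsto (fun n : ℕ × ℕ => δ (φ n.2)) atTop (𝓝 0) :=
      hδlim.comp (by rw [← prod_atTop_atTop_eq]; exact tendsto_snd)
    have t5 := ((((t1.sub t2).norm.const_mul C).add t3).add t4)
    simp only [sub_self, norm_zero, mul_zero, add_zero] at t5
    refine squeeze_zero (fun _ => dist_nonneg) (fun n => ?_) t5
    rw [dist_eq_norm]
    exact hdiff _ _
  obtain ⟨y0, hy0⟩ := cauchySeq_tendsto_of_complete hcau
  have n1 : ‖y0‖ = 1 := by
    have := hy0.norm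
    simp only [hy1] at this
    exact tendsto_nhds_unique this tendsto_const_nhds
  have hA : ∀ m, ‖A (y m)‖ ≤ ‖A‖ * δ m := by
    intro m
    refine le_of_forall_pos_le_add fun η hη => ?_
    obtain ⟨u, hu, h⟩ := hy m η hη
    rw [mem_closedBall_zero_iff] at hu
    have h1 := A.le_opNorm_of_le hu
    have h2 := norm_le_insert' (A (y m)) (A u)
    linarith
  have n2 : A y0 = 0 := by
    have t1 : Tendsto (fun j => A (y (φ j))) atTop (𝓝 (A y0)) := (A.continuous.tendsto _).comp hy0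
    have t2 : Tendsto (fun j => A (y (φ j))) atTop (𝓝 0) :=
      squeeze_zero_norm (fun j => hA _) (by simpa using hδlim.const_mul ‖A‖)
    exact tendsto_nhds_unique t1 t2
  rw [hinj _ n2, norm_zero] at n1
  exact zero_ne_one n1

end Pool.Agent.Lib.MP_d73b51_an
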