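import Pool.Agent.Lib.MP_d73b51_an.Defs

/-!
# The norming criterion for regularizability (both directions, elementary proofs)
-/

set_option autoImplicit false

open Set

namespace Pool.Agent.Lib.MP_d73b51_an

variable {X Y : Type} [NormedAddCommGroup X] [NormedSpace ℝ X]
  [NormedAddCommGroup Y] [NormedSpace ℝ Y]

/-- Closure of a set in the topology given by the seminorm `‖A ·‖`. -/
def acl (A : X →L[ℝ] Y) (S : Set X) : Set X :=
  {x | ∀ η : ℝ, 0 < η → ∃ u ∈ S, ‖A x - A u‖ ≤ η}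

theorem subset_acl (A : X →L[ℝ] Y) (S : Set X) : S ⊆ acl A S :=
  fun x hx _ hη => ⟨x, hx, by simpa using hη.le⟩

theorem acl_acl (A : X →L[ℝ] Y) (S : Set X) : acl A (acl A S) ⊆ acl A S := by
  intro x hx η hη
  obtain ⟨u, hu, h1⟩ := hx (η / 2) (by positivity)
  obtain ⟨v, hv, h2⟩ := hu (η / 2) (by positivity)
  refine ⟨v, hv, ?_⟩
  have := norm_sub_le_norm_sub_add_norm_sub (A x) (A u) (A v)
  linarith

theorem acl_inter (A : X →L[ℝ] Y) {S T : Set X} (hS : acl A S ⊆ S) (hT : acl A T ⊆ T) :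
    acl A (S ∩ T) ⊆ S ∩ T := fun x hx =>
  ⟨hS fun η hη => by obtain ⟨u, hu, h⟩ := hx η hη; exact ⟨u, hu.1, h⟩,
   hT fun η hη => by obtain ⟨u, hu, h⟩ := hx η hη; exact ⟨u, hu.2, h⟩⟩

/-- Index chosen at one step. -/
noncomputable def idx (F : ℕ → ℕ → Set X) (P : Set X → Prop) (S : Set X) (k : ℕ) : ℕ :=
  sInf {i | P (S ∩ F i k)}

/-- The nested chain of sets. -/
noncomputable def chain (F : ℕ → ℕ → Set X) (P : Set X → Prop) : ℕ → Set X
  | 0 => univ
  | k + 1 => chain F P k ∩ F (idx F P (chain F P k) k) k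

theorem chain_anti (F : ℕ → ℕ → Set X) (P : Set X → Prop) : Antitone (chain F P) :=
  antitone_nat_of_succ_le fun _ => inter_subset_left

theorem chain_holds (F : ℕ → ℕ → Set X) (hF : ∀ k x, ∃ i, x ∈ F i k) (Q : X → Prop)
    (h0 : ∃ y, Q y) (k : ℕ) : ∃ y ∈ chain F (fun S => ∃ y ∈ S, Q y) k, Q y := by
  induction k with
  | zero => obtain ⟨y, hy⟩ := h0; exact ⟨y, mem_univ _, hy⟩
  | succ k ih =>
    obtain ⟨y, hy, hq⟩ := ih
    obtain ⟨i, hi⟩ := hF k y
    have hne : {i | ∃ y ∈ chain F (fun S => ∃ y ∈ S, Q y) k ∩ F i k, Q y}.Nonempty :=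
      ⟨i, y, ⟨hy, hi⟩, hq⟩
    exact Nat.sInf_mem hne

theorem chain_closed (A : X →L[ℝ] Y) (F : ℕ → ℕ → Set X) (hc : ∀ i k, acl A (F i k) ⊆ F i k)
    (P : Set X → Prop) (k : ℕ) : acl A (chain F P k) ⊆ chain F P k := by
  induction k with
  | zero => exact subset_univ _
  | succ k ih => exact acl_inter A ih (hc _ _)

theorem chain_agree (A : X →L[ℝ] Y) (F : ℕ → ℕ → Set X) (hF : ∀ k x, ∃ i, x ∈ F i k)
    (hc : ∀ i k, acl A (F i k) ⊆ F i k) (f : X) (k : ℕ) :
    ∃ δ : ℝ, 0 < δ ∧ ∀ α : ℝ, 0 < α → α < δ → ∀ g : Y, ‖g - A f‖ ≤ α →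
      chain F (fun S => ∃ y ∈ S, ‖g - A y‖ < 2 * α) k = chain F (fun S => ∃ y ∈ S, y = f) k := by
  induction k with
  | zero => exact ⟨1, one_pos, fun _ _ _ _ _ => rfl⟩
  | succ k ih =>
    obtain ⟨δ, hδ, ih⟩ := ih
    set S := chain F (fun S => ∃ y ∈ S, y = f) k with hS
    set j := idx F (fun S => ∃ y ∈ S, y = f) S k with hj
    have hfj : f ∈ S ∩ F j k := by
      obtain ⟨y, hy, rfl⟩ := chain_holds F hF (fun y => y = f) ⟨f, rfl⟩ (k + 1)
      exact hy
    have hlt : ∀ i, ∃ η : ℝ, 0 < η ∧ (i < j → ∀ u ∈ S ∩ F i k, η < ‖A f - A u‖) := by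
      intro i
      by_cases hi : i < j
      · have h1 : f ∉ S ∩ F i k := fun h => Nat.notMem_of_lt_sInf hi ⟨f, h, rfl⟩
        have h2 : f ∉ acl A (S ∩ F i k) := fun h =>
          h1 (acl_inter A (chain_closed A F hc _ k) (hc i k) h)
        simp only [acl, mem_setOf_eq, not_forall, not_exists, not_and, not_le] at h2
        obtain ⟨η, hη, h2⟩ := h2
        exact ⟨η, hη, fun _ => h2⟩
      · exact ⟨1, one_pos, fun h => absurd h hi⟩
    choose η hη hη' using hlt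
    have hex : ∃ e : ℝ, 0 < e ∧ ∀ i < j, e ≤ η i := by
      generalize j = n
      induction n with
      | zero => exact ⟨1, one_pos, fun i hi => absurd hi (Nat.not_lt_zero i)⟩
      | succ n ihn =>
        obtain ⟨e, he, h⟩ := ihn
        refine ⟨min e (η n), lt_min he (hη n), fun i hi => ?_⟩
        rcases Nat.lt_succ_iff_lt_or_eq.mp hi with h1 | rfl
        · exact (min_le_left _ _).trans (h i h1)
        · exact min_le_right _ _
    obtain ⟨e, he, hle⟩ := hex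
    refine ⟨min δ (e / 3), lt_min hδ (by positivity), fun α hα hlt g hg => ?_⟩
    have h1 := ih α hα (hlt.trans_le (min_le_left _ _)) g hg
    have h3 : α < e / 3 := hlt.trans_le (min_le_right _ _)
    have h2 : idx F (fun S => ∃ y ∈ S, ‖g - A y‖ < 2 * α) S k = j := by
      have hmem : j ∈ {i | ∃ y ∈ S ∩ F i k, ‖g - A y‖ < 2 * α} := ⟨f, hfj, by linarith⟩
      refine le_antisymm (Nat.sInf_le hmem) ?_
      by_contra hcon
      have hlt' := not_le.mp hcon
      obtain ⟨y, hy, hy'⟩ := Nat.sInf_mem ⟨j, hmem⟩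
      have h4 := hη' _ hlt' y hy
      have h5 := hle _ hlt'
      have h6 := norm_sub_le_norm_sub_add_norm_sub (A f) g (A y)
      rw [norm_sub_rev (A f) g] at h6
      linarith
    simp only [chain]
    rw [h1, h2]

/-- A norming operator on a separable space is regularizable. -/
theorem regularizable_of_norming [TopologicalSpace.SeparableSpace X] (A : X →L[ℝ] Y) (c : ℝ)
    (hA : ∀ x ∈ acl A (Metric.closedBall 0 1), ‖x‖ ≤ c) : Regularizable A := by
  classical
  have hc0 : 0 ≤ c := by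
    simpa using hA 0 (subset_acl A _ (Metric.mem_closedBall_self zero_le_one))
  let x : ℕ → X := TopologicalSpace.denseSeq X
  have hx : DenseRange x := TopologicalSpace.denseRange_denseSeq X
  let F : ℕ → ℕ → Set X := fun i k => acl A (Metric.closedBall (x i) (1 / (k + 1)))
  have hF : ∀ k y, ∃ i, y ∈ F i k := by
    intro k y
    obtain ⟨i, hi⟩ := hx.exists_dist_lt y (ε := 1 / ((k : ℝ) + 1)) (by positivity)
    exact ⟨i, subset_acl A _ hi.le⟩
  have hc : ∀ i k, acl A (F i k) ⊆ F i k := fun i k => acl_acl A _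
  have hb : ∀ i k, ∀ y ∈ F i k, ‖y - x i‖ ≤ c / (k + 1) := by
    intro i k y hy
    have hk : (0 : ℝ) < k + 1 := by positivity
    have h1 : ((k : ℝ) + 1) • (y - x i) ∈ acl A (Metric.closedBall 0 1) := by
      intro η hη
      obtain ⟨u, hu, h⟩ := hy (η / (k + 1)) (by positivity)
      refine ⟨((k : ℝ) + 1) • (u - x i), ?_, ?_⟩
      · rw [mem_closedBall_zero_iff, norm_smul, Real.norm_of_nonneg hk.le]
        rw [mem_closedBall_iff_norm, le_div_iff₀ hk] at hu
        linarith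
      · have : A (((k : ℝ) + 1) • (y - x i)) - A (((k : ℝ) + 1) • (u - x i))
            = ((k : ℝ) + 1) • (A y - A u) := by
          simp only [map_smul, map_sub]; module
        rw [this, norm_smul, Real.norm_of_nonneg hk.le]
        rw [le_div_iff₀ hk] at h
        linarith
    have h2 := hA _ h1
    rw [norm_smul, Real.norm_of_nonneg hk.le] at h2
    rw [le_div_iff₀ hk]
    linarith
  let P : ℝ → Y → Set X → Prop := fun α g S => ∃ y ∈ S, ‖g - A y‖ < 2 * α
  refine ⟨fun α g => x (idx F (P α g) (chain F (P α g) ⌊1 / α⌋₊) ⌊1 / α⌋₊), fun f ε hε => ?_⟩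
  obtain ⟨k, hk⟩ := exists_nat_gt (3 * c / ε)
  obtain ⟨δ, hδ, hag⟩ := chain_agree A F hF hc f (k + 1)
  refine ⟨min δ (1 / (k + 1)), lt_min hδ (by positivity), fun α hα _ hlt g hg => ?_⟩
  have h1 := hag α hα (hlt.trans_le (min_le_left _ _)) g hg
  have hK : k ≤ ⌊1 / α⌋₊ := by
    apply Nat.le_floor
    have h2 : α < 1 / (k + 1) := hlt.trans_le (min_le_right _ _)
    rw [lt_div_iff₀ (by positivity)] at h2
    rw [le_div_iff₀ hα]
    nlinarith
  set K := ⌊1 / α⌋₊
  obtain ⟨y, hy, -⟩ := chain_holds F hF (fun y => ‖g - A y‖ < 2 * α) ⟨f, by linarith⟩ (K + 1)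
  have hy1 := hb _ _ y hy.2
  have hy2 : y ∈ chain F (fun S => ∃ y ∈ S, y = f) (k + 1) := by
    rw [← h1]; exact chain_anti F _ (Nat.succ_le_succ hK) hy
  obtain ⟨z, hz, rfl⟩ := chain_holds F hF (fun y => y = f) ⟨f, rfl⟩ (k + 1)
  have hy3 := hb _ _ y hy2.2
  have hz3 := hb _ _ z hz.2
  have hKk : c / ((K : ℝ) + 1) ≤ c / (k + 1) := by
    apply div_le_div_of_nonneg_left hc0 (by positivity)
    have : (k : ℝ) ≤ K := by exact_mod_cast hK
    linarith
  have hε' : 3 * (c / ((k : ℝ) + 1)) ≤ ε := by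
    rw [div_lt_iff₀ hε] at hk
    rw [← mul_div_assoc, div_le_iff₀ (by positivity)]
    nlinarith
  set w := x (idx F (fun S => ∃ y ∈ S, y = z) (chain F (fun S => ∃ y ∈ S, y = z) k) k)
  set v := x (idx F (P α g) (chain F (P α g) K) K)
  have e1 := norm_sub_le_norm_sub_add_norm_sub z w v
  have e2 := norm_sub_le_norm_sub_add_norm_sub w y v
  rw [norm_sub_rev w y] at e2
  change ‖y - v‖ ≤ _ at hy1
  change ‖z - v‖ ≤ ε
  linarith

/-- An operator that is not norming is not regularizable. -/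
theorem not_regularizable [CompleteSpace X] (A : X →L[ℝ] Y)
    (h : ∀ δ : ℝ, 0 < δ → ∃ x ∈ acl A (Metric.closedBall 0 δ), 1 ≤ ‖x‖) : ¬Regularizable A := by
  rintro ⟨T, hT⟩
  let S : ℕ → Set X := fun m => {f | ∀ α : ℝ, 0 < α → α ≤ 1 → α < 1 / (m + 1) →
    ∀ g : Y, ‖g - A f‖ ≤ α → ‖f - T α g‖ ≤ 1}
  have hS : ∀ f, ∃ m, f ∈ S m := by
    intro f
    obtain ⟨δ, hδ, h1⟩ := hT f 1 one_pos
    obtain ⟨m, hm⟩ := exists_nat_one_div_lt hδ
    exact ⟨m, fun α h0 h2 h3 => h1 α h0 h2 (h3.trans hm)⟩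
  have hU : (⋃ m, closure (S m)) = univ := by
    refine eq_univ_of_forall fun f => ?_
    obtain ⟨m, hm⟩ := hS f
    exact mem_iUnion.mpr ⟨m, subset_closure hm⟩
  obtain ⟨m0, f0, hf0⟩ := nonempty_interior_of_iUnion_of_closed (fun m => isClosed_closure) hU
  obtain ⟨r, hr, hball⟩ := Metric.isOpen_iff.mp isOpen_interior f0 hf0
  obtain ⟨x, hx, hx1⟩ := h (min r 1 / 10) (by positivity)
  obtain ⟨m1, hm1⟩ := hS (f0 + (5 : ℝ) • x)
  set α : ℝ := 1 / ((m0 : ℝ) + m1 + 2) with hα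
  have hα0 : 0 < α := by positivity
  have hm0' : (0 : ℝ) ≤ m0 := Nat.cast_nonneg _
  have hm1' : (0 : ℝ) ≤ m1 := Nat.cast_nonneg _
  have hα1 : α ≤ 1 := by rw [hα, div_le_one (by positivity)]; linarith
  have hα2 : α < 1 / (m0 + 1) := one_div_lt_one_div_of_lt (by positivity) (by linarith)
  have hα3 : α < 1 / (m1 + 1) := one_div_lt_one_div_of_lt (by positivity) (by linarith)
  obtain ⟨u, hu, hxu⟩ := hx (α / 10) (by positivity)
  rw [mem_closedBall_zero_iff] at hu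
  have hu5 : ‖(5 : ℝ) • u‖ ≤ min r 1 / 2 := by
    rw [norm_smul, Real.norm_of_nonneg (by norm_num)]; linarith
  have hmin1 := min_le_left r 1
  have hmin2 := min_le_right r 1
  have hmem : f0 + (5 : ℝ) • u ∈ closure (S m0) := by
    refine interior_subset (hball ?_)
    rw [mem_ball_iff_norm, add_sub_cancel_left]
    linarith
  obtain ⟨f2, hf2, hd⟩ := Metric.mem_closure_iff.mp hmem (min 1 (α / (2 * (‖A‖ + 1))))
    (by positivity)
  rw [dist_eq_norm] at hd
  have hd1 := hd.le.trans (min_le_left _ _)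
  have hd2 := hd.le.trans (min_le_right _ _)
  have e1 : ‖A (f0 + (5 : ℝ) • x) - A f2‖ ≤ α := by
    have e : A (f0 + (5 : ℝ) • x) - A f2
        = (5 : ℝ) • (A x - A u) + A (f0 + (5 : ℝ) • u - f2) := by
      simp only [map_add, map_smul, map_sub]; module
    have b1 : ‖(5 : ℝ) • (A x - A u)‖ ≤ α / 2 := by
      rw [norm_smul, Real.norm_of_nonneg (by norm_num)]; linarith
    have b2 := A.le_opNorm (f0 + (5 : ℝ) • u - f2)
    have b3 : ‖A‖ * ‖f0 + (5 : ℝ) • u - f2‖ ≤ α / 2 := by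
      rw [le_div_iff₀ (by positivity)] at hd2
      nlinarith [norm_nonneg A, norm_nonneg (f0 + (5 : ℝ) • u - f2)]
    rw [e]
    exact (norm_add_le _ _).trans (by linarith)
  have t1 := hm1 α hα0 hα1 hα3 (A (f0 + (5 : ℝ) • x)) (by simpa using hα0.le)
  have t2 := hf2 α hα0 hα1 hα2 (A (f0 + (5 : ℝ) • x)) e1
  set w := T α (A (f0 + (5 : ℝ) • x))
  have e : (5 : ℝ) • x = (f0 + (5 : ℝ) • x - w) - (f2 - w) - (f0 + (5 : ℝ) • u - f2)
      + (5 : ℝ) • u := by module
  have n1 : ‖(5 : ℝ) • x‖ ≤ 1 + 1 + 1 + 1 / 2 := by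
    rw [e]
    refine (norm_add_le _ _).trans (add_le_add ((norm_sub_le _ _).trans (add_le_add
      ((norm_sub_le _ _).trans (add_le_add t1 t2)) hd1)) (by linarith))
  rw [norm_smul, Real.norm_of_nonneg (by norm_num)] at n1
  linarith

end Pool.Agent.Lib.MP_d73b51_an
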