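import Pool.Agent.Lib.MP_d73b51_an.Cube

/-!
# Uniqueness sets of frequencies on the cube
-/

set_option autoImplicit false

open Set Filter Topology MeasureTheory
open scoped Real

namespace Pool.Agent.Lib.MP_d73b51_an

/-- The character `exp (-i r)`. -/
noncomputable def ex (r : ℝ) : ℂ := Complex.exp (-(Complex.I * r))

theorem ex_add (r s : ℝ) : ex (r + s) = ex r * ex s := by
  rw [ex, ex, ex, ← Complex.exp_add]
  congr 1
  push_cast
  ring

theorem ex_zero : ex 0 = 1 := by simp [ex]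

theorem ex_ne (r : ℝ) : ex r ≠ 0 := Complex.exp_ne_zero _

theorem ex_eq (r : ℝ) : ex r = Real.cos r - Real.sin r * Complex.I := by
  rw [ex, show -(Complex.I * r) = (-r : ℂ) * Complex.I by ring, Complex.exp_mul_I]
  simp [sub_eq_add_neg]

theorem norm_ex (r : ℝ) : ‖ex r‖ = 1 := by
  rw [ex, show -(Complex.I * r) = ((-r : ℝ) : ℂ) * Complex.I by push_cast; ring]
  exact Complex.norm_exp_ofReal_mul_I _

@[fun_prop]
theorem continuous_ex : Continuous ex := by unfold ex; fun_prop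

theorem ex_even (m : ℤ) : ex (2 * π * m) = 1 := by
  rw [ex_eq, show 2 * π * m = m * (2 * π) by ring, Real.cos_int_mul_two_pi,
    show (m : ℝ) * (2 * π) = ((2 * m : ℤ) : ℝ) * π by push_cast; ring, Real.sin_int_mul_pi]
  simp

theorem ex_odd (m : ℤ) : ex (π * (2 * m + 1)) = -1 := by
  rw [show π * (2 * m + 1) = 2 * π * m + π by ring, ex_add, ex_even, ex_eq]
  simp

theorem integral_ex {c T : ℝ} (hc : c ≠ 0) (h : ex (c * T) = 1) :
    ∫ t in (0 : ℝ)..T, ex (c * t) = 0 := by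
  have e : ∀ t : ℝ, ex (c * t) = Complex.exp (-(Complex.I * c) * t) := fun t => by
    rw [ex]; congr 1; push_cast; ring
  simp only [e] at h ⊢
  rw [integral_exp_mul_complex (by simpa using hc), h]
  simp

theorem four_uniq {T : ℝ} (hT : 0 < T) {h : ℝ → ℂ} (hh : Continuous h)
    (H : ∀ m : ℤ, ∫ t in (0 : ℝ)..T, h t * ex (2 * π * m / T * t) = 0) :
    ∀ t ∈ Icc 0 T, h t = 0 := by
  have hL : MemLp h 2 (volume.restrict (Ioc 0 T)) := by
    obtain ⟨C, hC⟩ := isCompact_Icc.exists_bound_of_continuousOn (hh.continuousOn (s := Icc 0 T))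
    refine MemLp.of_bound hh.aestronglyMeasurable C ?_
    filter_upwards [ae_restrict_mem measurableSet_Ioc] with t ht
    exact hC t (Ioc_subset_Icc_self ht)
  have hs := hasSum_sq_fourierCoeffOn hT hL
  have h0 : ∀ m, fourierCoeffOn hT h m = 0 := fun m => by
    rw [fourierCoeffOn_eq_integral]
    have : ∀ x : ℝ, fourier (-m) (x : AddCircle (T - 0)) • h x
        = h x * ex (2 * π * m / T * x) := fun x => by
      rw [fourier_coe_apply, smul_eq_mul, mul_comm, ex]
      congr 2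
      push_cast
      ring
    simp only [this, H, smul_zero]
  simp only [h0, norm_zero, ne_eq, OfNat.ofNat_ne_zero, not_false_eq_true, zero_pow] at hs
  have h1 := hs.unique hasSum_zero
  intro t ht
  by_contra hne
  have h2 := intervalIntegral.integral_pos hT (f := fun x => ‖h x‖ ^ 2) (by fun_prop)
    (fun _ _ => by positivity) ⟨t, ht, by positivity⟩
  rw [smul_eq_zero, sub_zero] at h1
  exact h1.elim (inv_ne_zero hT.ne') h2.ne'

/-- `M` is a uniqueness set for continuous functions on `[0,1]`. -/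
def Uniq1 (M : Set ℝ) : Prop :=
  ∀ h : ℝ → ℂ, Continuous h → (∀ μ ∈ M, ∫ t in (0 : ℝ)..1, h t * ex (μ * t) = 0) →
    ∀ t ∈ Icc (0 : ℝ) 1, h t = 0

/-- `Λ` is a uniqueness set for continuous functions on the cube. -/
def Uniq (d : ℕ) (Λ : Set (Fin d → ℝ)) : Prop :=
  ∀ H : (Fin d → ℝ) → ℂ, Continuous H → (∀ l ∈ Λ, ∫ y, H y * ex (l ⬝ᵥ y) ∂cm d = 0) →
    ∀ y ∈ Icc (0 : Fin d → ℝ) 1, H y = 0

/-- Odd multiples of `π`. -/
def Od : Set ℝ := range fun m : ℤ => π * (2 * m + 1)

/-- The perturbed lattice. -/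
def Pt (ε : ℝ) : Set ℝ :=
  (fun m : ℤ => 4 * π * m) '' {m | m ≠ 0} ∪ range fun m : ℤ => 2 * (π * (2 * m + 1) + ε)

theorem uniq_od : Uniq1 Od := by
  intro h hh H t ht
  have := four_uniq one_pos (h := fun t => h t * ex (π * t)) (by fun_prop) (fun m => by
    rw [← H _ ⟨m, rfl⟩]
    refine congrArg (fun f : ℝ → ℂ => ∫ t in (0 : ℝ)..1, f t) (funext fun t => ?_)
    rw [mul_assoc, ← ex_add]
    congr 2
    ring) t ht
  exact (mul_eq_zero.mp this).resolve_right (ex_ne _)

theorem halves {h : ℝ → ℂ} (hh : ∀ a b, IntervalIntegrable h volume a b) (μ : ℝ) :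
    ∫ t in (0 : ℝ)..1, h t * ex (μ * t)
      = ∫ t in (0 : ℝ)..(1 / 2), (h t + ex (μ / 2) * h (t + 1 / 2)) * ex (μ * t) := by
  have hi : ∀ a b, IntervalIntegrable (fun t => h t * ex (μ * t)) volume a b := fun a b =>
    (hh a b).mul_continuousOn (by fun_prop)
  have e : ∀ t, (h t + ex (μ / 2) * h (t + 1 / 2)) * ex (μ * t)
      = h t * ex (μ * t) + h (t + 1 / 2) * ex (μ * (t + 1 / 2)) := fun t => by
    rw [show μ * (t + 1 / 2) = μ / 2 + μ * t by ring, ex_add]
    ring
  have h2 := (hi (1 / 2) 1).comp_add_right (1 / 2)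
  rw [sub_self, show (1 : ℝ) - 1 / 2 = 1 / 2 by norm_num] at h2
  simp only [e]
  rw [intervalIntegral.integral_add (hi _ _) h2,
    intervalIntegral.integral_comp_add_right (fun t => h t * ex (μ * t)), zero_add, add_halves,
    intervalIntegral.integral_add_adjacent_intervals (hi _ _) (hi _ _)]

theorem integral_ex_half {m : ℤ} (hm : m ≠ 0) :
    ∫ t in (0 : ℝ)..(1 / 2), ex (4 * π * m * t) = 0 :=
  integral_ex (by positivity) (by rw [← ex_even m]; congr 1; ring)

theorem uniq_pt {ε : ℝ} (hε : Real.sin ε ≠ 0) : Uniq1 (Pt ε) := by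
  intro h hh H
  have hi : ∀ a b, IntervalIntegrable h volume a b := fun a b => hh.intervalIntegrable a b
  have h1 : ∀ t ∈ Icc (0 : ℝ) (1 / 2), h t = ex ε * h (t + 1 / 2) := fun t ht => by
    have := four_uniq one_half_pos
      (h := fun t => (h t - ex ε * h (t + 1 / 2)) * ex (2 * (π + ε) * t)) (by fun_prop) (fun m => by
      rw [← H _ (Or.inr ⟨m, rfl⟩), halves hi]
      refine congrArg (fun f : ℝ → ℂ => ∫ t in (0 : ℝ)..(1 / 2), f t) (funext fun t => ?_)
      rw [mul_assoc, ← ex_add, mul_div_cancel_left₀ _ two_ne_zero, ex_add _ ε, ex_odd]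
      congr 1
      · ring
      · congr 1
        ring) t ht
    exact sub_eq_zero.mp ((mul_eq_zero.mp this).resolve_right (ex_ne _))
  let c : ℂ := 2 * ∫ t in (0 : ℝ)..(1 / 2), (h t + h (t + 1 / 2))
  have h2 : ∀ t ∈ Icc (0 : ℝ) (1 / 2), h t + h (t + 1 / 2) = c := fun t ht => by
    refine sub_eq_zero.mp (four_uniq one_half_pos
      (h := fun t => h t + h (t + 1 / 2) - c) (by fun_prop) (fun m => ?_) t ht)
    have e : 2 * π * m / (1 / 2) = 4 * π * m := by ring
    simp only [e, sub_mul]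
    rw [intervalIntegral.integral_sub (Continuous.intervalIntegrable (by fun_prop) _ _)
      (Continuous.intervalIntegrable (by fun_prop) _ _), intervalIntegral.integral_const_mul]
    rcases eq_or_ne m 0 with rfl | hm
    · simp only [Int.cast_zero, mul_zero, zero_mul, ex_zero, mul_one, c,
        intervalIntegral.integral_const, sub_zero, Complex.real_smul]
      push_cast
      ring
    · have := H _ (Or.inl ⟨m, hm, rfl⟩)
      rw [halves hi, show 4 * π * m / 2 = 2 * π * m by ring, ex_even] at this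
      simp only [one_mul] at this
      rw [this, integral_ex_half hm, mul_zero, sub_zero]
  have n1 : ex ε + 1 ≠ 0 := fun h => hε (by simpa [ex_eq, Complex.sin_ofReal_re] using congrArg Complex.im h)
  have n2 : ex ε - 1 ≠ 0 := fun h => hε (by simpa [ex_eq, Complex.sin_ofReal_re] using congrArg Complex.im h)
  have a1 := h1 0 ⟨le_rfl, by norm_num⟩
  have a2 := h2 0 ⟨le_rfl, by norm_num⟩
  have a3 := h1 (1 / 2) ⟨by norm_num, le_rfl⟩
  have a4 := h2 (1 / 2) ⟨by norm_num, le_rfl⟩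
  rw [zero_add] at a1 a2
  rw [add_halves] at a3 a4
  have a5 : h (1 / 2) = h 1 := mul_left_cancel₀ n1 (by linear_combination a2 - a4 - a1 + a3)
  have a6 : h 1 = 0 := (mul_eq_zero.mp (show (ex ε - 1) * h 1 = 0 by
    linear_combination a5 - a3)).resolve_left n2
  have a7 : c = 0 := by rw [← a4, a5, a6, add_zero]
  have h3 : ∀ t ∈ Icc (0 : ℝ) (1 / 2), h (t + 1 / 2) = 0 := fun t ht =>
    (mul_eq_zero.mp (show (ex ε + 1) * h (t + 1 / 2) = 0 by
      linear_combination h2 t ht - h1 t ht + a7)).resolve_left n1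
  intro t ht
  rcases le_total t (1 / 2) with h4 | h4
  · rw [h1 t ⟨ht.1, h4⟩, h3 t ⟨ht.1, h4⟩, mul_zero]
  · simpa using h3 (t - 1 / 2) ⟨by linarith, by linarith [ht.2]⟩

theorem cm_int {d : ℕ} {E : Type} [NormedAddCommGroup E] {H : (Fin d → ℝ) → E}
    (hH : Continuous H) : Integrable H (cm d) := by
  rw [cm_eq]
  exact hH.continuousOn.integrableOn_compact isCompact_Icc

theorem slice {n : ℕ} {H : (Fin (n + 1) → ℝ) → ℂ} (hH : Continuous H) :
    ∫ y, H y ∂cm (n + 1) = ∫ t in (0 : ℝ)..1, ∫ s, H (Fin.cons t s) ∂cm n := by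
  have h := (measurePreserving_piFinSuccAbove
    (fun _ : Fin (n + 1) => (volume.restrict (Icc (0 : ℝ) 1) : Measure ℝ)) 0).symm
  have hi := (h.integrable_comp_emb (MeasurableEquiv.measurableEmbedding _)).mpr (cm_int hH)
  rw [cm, ← h.integral_comp', intervalIntegral.integral_of_le zero_le_one,
    ← integral_Icc_eq_integral_Ioc]
  refine (integral_prod _ hi).trans ?_
  simp [cm, MeasurableEquiv.piFinSuccAbove, Fin.insertNthEquiv]

theorem uniq_step {n : ℕ} {Λ : Set (Fin n → ℝ)} {M : (Fin n → ℝ) → Set ℝ} (hΛ : Uniq n Λ)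
    (hM : ∀ l ∈ Λ, Uniq1 (M l)) : Uniq (n + 1) {y | Fin.tail y ∈ Λ ∧ y 0 ∈ M (Fin.tail y)} := by
  intro H hH h y hy
  have hc : Continuous fun q : ℝ × (Fin n → ℝ) => (Fin.cons q.1 q.2 : Fin (n + 1) → ℝ) := by
    fun_prop
  rw [← Fin.cons_self_tail y]
  refine hΛ (fun s => H (Fin.cons (y 0) s)) (by fun_prop) (fun l hl => ?_) _
    ⟨fun i => hy.1 i.succ, fun i => hy.2 i.succ⟩
  refine hM l hl (fun t => ∫ s, H (Fin.cons t s) * ex (l ⬝ᵥ s) ∂cm n) ?_ (fun μ hμ => ?_) _
    ⟨hy.1 0, hy.2 0⟩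
  · rw [cm_eq]
    exact continuous_parametric_integral_of_continuous
      ((hH.comp hc).mul (by fun_prop)) isCompact_Icc
  · rw [← h (Fin.cons μ l) ⟨hl, hμ⟩, slice (by fun_prop)]
    refine congrArg (fun f : ℝ → ℂ => ∫ t in (0 : ℝ)..1, f t) (funext fun t => ?_)
    rw [← integral_mul_const]
    refine congrArg _ (funext fun s => ?_)
    rw [mul_assoc, ← ex_add, add_comm (l ⬝ᵥ s)]
    simp [dotProduct, Fin.sum_univ_succ]

theorem uniq_odn (n : ℕ) : Uniq n {l | ∀ i, l i ∈ Od} := by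
  induction n with
  | zero =>
    intro H _ h y _
    have := h 0 (fun i => i.elim0)
    rw [cm, Measure.pi_of_empty _ y, integral_dirac, zero_dotProduct, ex_zero, mul_one] at this
    exact this
  | succ n ih =>
    intro H hH h
    exact uniq_step ih (M := fun _ => Od) (fun _ _ => uniq_od) H hH fun l hl =>
      h l (Fin.forall_fin_succ.mpr ⟨hl.2, hl.1⟩)

/-- The spectrum used in dimension at least two. -/
def Sp (n : ℕ) : Set (Fin (n + 2) → ℝ) :=
  {y | Fin.tail y ∈ {l : Fin (n + 1) → ℝ | ∀ i, l i ∈ Od} ∧ y 0 ∈ Pt (Fin.tail y 0)⁻¹}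

theorem od_abs {r : ℝ} (hr : r ∈ Od) : π ≤ |r| := by
  obtain ⟨m, rfl⟩ := hr
  have : (1 : ℝ) ≤ |2 * (m : ℝ) + 1| := by
    exact_mod_cast Int.one_le_abs (by omega : 2 * m + 1 ≠ 0)
  simp only [abs_mul, abs_of_pos Real.pi_pos]
  nlinarith [Real.pi_pos]

theorem uniq_sp (n : ℕ) : Uniq (n + 2) (Sp n) := by
  refine uniq_step (uniq_odn (n + 1)) (M := fun l => Pt (l 0)⁻¹) fun l hl => uniq_pt ?_
  have h1 := od_abs (hl 0)
  have h2 : |(l 0)⁻¹| < π := by
    rw [abs_inv]
    exact (inv_le_one_of_one_le₀ (by linarith [Real.pi_gt_three])).trans_lt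
      (by linarith [Real.pi_gt_three])
  rw [Ne, Real.sin_eq_zero_iff_of_lt_of_lt (abs_lt.mp h2).1 (abs_lt.mp h2).2, inv_eq_zero]
  exact abs_pos.mp (Real.pi_pos.trans_le h1)

theorem sp_countable (n : ℕ) : (Sp n).Countable := by
  have h1 : {l : Fin (n + 1) → ℝ | ∀ i, l i ∈ Od}.Countable :=
    countable_pi fun _ => countable_range _
  have h2 : ∀ ε, (Pt ε).Countable := fun ε =>
    ((to_countable _).image _).union (countable_range _)
  refine (h1.biUnion fun l _ => (h2 (l 0)⁻¹).image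
    fun μ => (Fin.cons μ l : Fin (n + 2) → ℝ)).mono fun y hy => ?_
  exact mem_biUnion hy.1 ⟨y 0, hy.2, Fin.cons_self_tail y⟩

end Pool.Agent.Lib.MP_d73b51_an
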